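import Pool.Agent.WhC.StE

/-!
# The logarithmic derivative of the tensor power
-/

set_option autoImplicit false

namespace Pool.Agent.WhC

open Finset

namespace EVAx

section Index

variable {n N : ℕ}

/-- The generator on the full indices. -/
def sa (a : Fin (n + 1) → ZMod N) : Fin (n + 1) → ZMod N :=
  Fin.snoc (α := fun _ => ZMod N) (fun j : Fin n => a j.succ) (a 0 + 1)

theorem sa_castSucc (a : Fin (n + 1) → ZMod N) (j : Fin n) : sa a j.castSucc = a j.succ := by
  unfold sa
  rw [Fin.snoc_castSucc]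

theorem sa_last (a : Fin (n + 1) → ZMod N) : sa a (Fin.last n) = a 0 + 1 := by
  unfold sa
  rw [Fin.snoc_last]

theorem full_ne (a : Fin (n + 1) → ZMod N) :
    (fun j => some (a j) : Hat n N) ≠ fun _ => none := by
  intro h
  have := congrFun h 0
  simp at this

/-- The full indices. -/
def full (a : Fin (n + 1) → ZMod N) : FF n N := ⟨fun j => some (a j), full_ne a⟩

theorem full_inj : Function.Injective (full : (Fin (n + 1) → ZMod N) → FF n N) := by
  intro a b h
  have h1 := congrArg Subtype.val h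
  funext j
  exact Option.some.inj (congrFun h1 j)

theorem sg_full (a : Fin (n + 1) → ZMod N) : sg (full a).1 = (full (sa a)).1 := by
  funext j
  refine Fin.lastCases ?_ (fun j => ?_) j
  · show sg _ _ = some (sa a (Fin.last n))
    unfold sg
    rw [Fin.snoc_last, sa_last]
    rfl
  · show sg _ _ = some (sa a j.castSucc)
    unfold sg
    rw [Fin.snoc_castSucc, sa_castSucc]
    rfl

theorem exists_none {S : FF n N} (h : S ∉ Set.range (full : (Fin (n + 1) → ZMod N) → FF n N)) :
    ∃ j, S.1 j = none := by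
  by_contra hc
  push Not at hc
  apply h
  have h1 : ∀ j, ∃ a, S.1 j = some a := fun j => Option.ne_none_iff_exists'.1 (hc j)
  choose a ha using h1
  exact ⟨a, Subtype.ext (funext fun j => (ha j).symm)⟩

theorem sum_sa (a : Fin (n + 1) → ZMod N) : ∑ j, sa a j = ∑ j, a j + 1 := by
  rw [Fin.sum_univ_castSucc, Fin.sum_univ_succ a, sa_last]
  simp only [sa_castSucc]
  ring

/-- `a j = (sa a) j` for all `j ≠ j₀`. -/
def Cond (j0 : Fin (n + 1)) (a : Fin (n + 1) → ZMod N) : Prop := ∀ j, j ≠ j0 → a j = sa a j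

theorem cond_succ {j0 : Fin (n + 1)} {a : Fin (n + 1) → ZMod N} (h : Cond j0 a) :
    sa a j0 = a j0 + 1 := by
  have h1 : ∑ j, (sa a j - a j) = sa a j0 - a j0 := by
    refine Finset.sum_eq_single j0 (fun j _ hj => ?_) fun hj => absurd (Finset.mem_univ _) hj
    rw [h j hj, sub_self]
  rw [Finset.sum_sub_distrib, sum_sa] at h1
  have h2 : sa a j0 - a j0 = 1 := by rw [← h1]; ring
  rw [← h2]
  ring

/-- The full indices which satisfy the condition. -/
def stf (j0 : Fin (n + 1)) (b : ZMod N) : Fin (n + 1) → ZMod N :=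
  fun j => if j ≤ j0 then b else b + 1

theorem stf_zero (j0 : Fin (n + 1)) (b : ZMod N) : stf j0 b 0 = b := if_pos (Fin.zero_le _)

theorem stf_inj (j0 : Fin (n + 1)) : Function.Injective (stf j0 : ZMod N → _) := by
  intro b c h
  have := congrFun h 0
  rwa [stf_zero, stf_zero] at this

theorem cond_stf (j0 : Fin (n + 1)) (b : ZMod N) : Cond j0 (stf j0 b) := by
  intro j
  refine Fin.lastCases ?_ (fun j => ?_) j
  · intro hj
    rw [sa_last, stf_zero]
    refine if_neg fun h => hj ?_
    exact le_antisymm h (Fin.le_last _)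
  · intro hj
    rw [sa_castSucc]
    unfold stf
    by_cases h : j.succ ≤ j0
    · have h1 : j.castSucc ≤ j0 := le_trans (Fin.castSucc_lt_succ).le h
      rw [if_pos h, if_pos h1]
    · have h1 : ¬ j.castSucc ≤ j0 := by
        intro h2
        apply h
        have h3 : j.castSucc < j0 := lt_of_le_of_ne h2 hj
        exact Fin.le_def.2 (Nat.succ_le_of_lt (Fin.lt_def.1 h3))
      rw [if_neg h, if_neg h1]

theorem eq_stf {j0 : Fin (n + 1)} {a : Fin (n + 1) → ZMod N} (h : Cond j0 a) :
    a = stf j0 (a 0) := by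
  have h1 : ∀ j : Fin (n + 1), j ≤ j0 → a j = a 0 := by
    intro j
    refine Fin.induction (fun _ => rfl) (fun j ih hj => ?_) j
    have h2 : j.castSucc < j0 := lt_of_lt_of_le Fin.castSucc_lt_succ hj
    have h3 := h j.castSucc h2.ne
    rw [sa_castSucc] at h3
    rw [← h3, ih h2.le]
  have h2 : ∀ j : Fin (n + 1), ¬ j ≤ j0 → a j = a 0 + 1 := by
    intro j
    refine Fin.reverseInduction (fun hj => ?_) (fun j ih hj => ?_) j
    · rw [h (Fin.last n) fun h3 => hj h3.le, sa_last]
    · have h3 := h j.castSucc fun h4 => hj h4.le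
      rw [sa_castSucc] at h3
      rw [h3]
      exact ih fun h4 => hj (le_trans (Fin.castSucc_lt_succ).le h4)
  funext j
  unfold stf
  by_cases hj : j ≤ j0
  · rw [if_pos hj, h1 j hj]
  · rw [if_neg hj, h2 j hj]

theorem sa_stf_succ (j : Fin n) (b : ZMod N) : sa (stf j.succ b) = stf j.castSucc b := by
  funext i
  refine Fin.lastCases ?_ (fun i => ?_) i
  · rw [sa_last, stf_zero]
    refine (if_neg fun h => ?_).symm
    exact absurd h (not_le.2 (Fin.castSucc_lt_last j))
  · rw [sa_castSucc]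
    unfold stf
    simp only [Fin.succ_le_succ_iff, Fin.castSucc_le_castSucc_iff]

theorem sa_stf_zero (b : ZMod N) : sa (stf (0 : Fin (n + 1)) b) = stf (Fin.last n) (b + 1) := by
  funext i
  have h : stf (Fin.last n) (b + 1) i = b + 1 := if_pos (Fin.le_last _)
  rw [h]
  refine Fin.lastCases ?_ (fun i => ?_) i
  · rw [sa_last, stf_zero]
  · rw [sa_castSucc]
    refine if_neg fun h => ?_
    exact absurd h (not_le.2 (Fin.succ_pos i))

/-- (3) -/
theorem count {M : Type*} [AddCommGroup M] {N' : ℕ} [NeZero N] [NeZero N'] (hN : N' = (n + 1) * N)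
    (φ : (Fin (n + 1) → ZMod N) → ZMod N') (hφ : ∀ a, φ (sa a) = φ a + 1) (t : M) :
    ∑ j0 : Fin (n + 1), ∑ b : ZMod N, (if φ (stf j0 b) = 0 then t else 0) = t := by
  classical
  let F : Fin (n + 1) × ZMod N → ZMod N' := fun x => φ (stf x.1 x.2)
  have hF : ∀ x, F x = φ (stf x.1 x.2) := fun _ => rfl
  have h1 : ∀ x, ∃ y, F y = F x + 1 := by
    rintro ⟨j, b⟩
    refine Fin.cases ⟨(Fin.last n, b + 1), ?_⟩ (fun j => ⟨(j.castSucc, b), ?_⟩) j
    · rw [hF, hF, ← hφ, sa_stf_zero]
    · rw [hF, hF, ← hφ, sa_stf_succ]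
  have h2 : ∀ k : ℕ, ∃ y, F y = F (0, 0) + k := by
    intro k
    induction k with
    | zero => exact ⟨(0, 0), by rw [Nat.cast_zero, add_zero]⟩
    | succ k ih =>
      obtain ⟨y, hy⟩ := ih
      obtain ⟨z, hz⟩ := h1 y
      exact ⟨z, by rw [hz, hy, Nat.cast_succ, add_assoc]⟩
  have h3 : Function.Surjective F := by
    intro c
    obtain ⟨y, hy⟩ := h2 (c - F (0, 0)).val
    refine ⟨y, ?_⟩
    rw [hy, ZMod.natCast_zmod_val]
    ring
  have h4 : Function.Bijective F := by
    rw [Fintype.bijective_iff_surjective_and_card]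
    refine ⟨h3, ?_⟩
    rw [Fintype.card_prod, Fintype.card_fin, ZMod.card, ZMod.card, hN]
  rw [← Fintype.sum_prod_type' (f := fun j0 b => if φ (stf j0 b) = 0 then t else 0)]
  obtain ⟨x, hx⟩ := h4.2 0
  rw [Finset.sum_eq_single x]
  · exact if_pos hx
  · intro y _ hy
    refine if_neg fun h => hy ?_
    apply h4.1
    rw [hx]
    exact h
  · intro h
    exact absurd (Finset.mem_univ _) h

end Index

section Factor

variable {N : ℕ} {B0 : Type*} [Ring B0]

theorem Eo_zero {x : B0} {Z Z' : Matrix (ZMod N) (ZMod N) B0} (o o' o'' : Option (ZMod N))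
    (h : ¬ (o = none ↔ o'' = none)) : Eo x Z o o' * Eo x Z' o' o'' = 0 := by
  cases o with
  | none =>
    cases o'' with
    | none => exact absurd Iff.rfl h
    | some b =>
      cases o' with
      | none =>
        have : Eo x Z' none (some b) = 0 := rfl
        rw [this, mul_zero]
      | some c =>
        have : Eo x Z none (some c) = 0 := rfl
        rw [this, zero_mul]
  | some a =>
    cases o'' with
    | none =>
      cases o' with
      | none =>
        have : Eo x Z (some a) none = 0 := rfl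
        rw [this, zero_mul]
      | some c =>
        have : Eo x Z' (some c) none = 0 := rfl
        rw [this, mul_zero]
    | some b => exact absurd (by simp) h

end Factor

section Main

variable {n N N' : ℕ} [NeZero N] [NeZero N'] {B0 B M : Type*} [Ring B0] [Ring B]
  [AddCommGroup M] [Module (ZMod N) M] {D0 : Tw B0 M} {D : Tw B M} (P : Places n D0 D)

omit [NeZero N] [Module (ZMod N) M] in
/-- (1) -/
theorem not_full (Y Yi : Matrix (ZMod N) (ZMod N) B0) (S : FF n N)
    (h : ∃ j, S.1 j = none) (S' : Hat n N) :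
    P.tens (fun j => Eo 1 Yi (S.1 j) (S' j) * Eo 1 Y (S' j) (sg S.1 j)) = 0 := by
  have h1 : ∃ j : Fin n, ¬ (S.1 j.castSucc = none ↔ S.1 j.succ = none) := by
    by_contra hc
    push Not at hc
    have h2 : ∀ j : Fin (n + 1), (S.1 j = none ↔ S.1 0 = none) := by
      intro j
      refine Fin.induction Iff.rfl (fun j ih => ?_) j
      rw [← hc j, ih]
    obtain ⟨j, hj⟩ := h
    have h3 := (h2 j).1 hj
    exact S.2 (funext fun i => (h2 i).2 h3)
  obtain ⟨j, hj⟩ := h1
  refine P.tens_zero _ j.castSucc ?_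
  have h2 : sg S.1 j.castSucc = S.1 j.succ := by
    unfold sg
    rw [Fin.snoc_castSucc]
  rw [h2]
  exact Eo_zero _ _ _ hj

/-- (2), one place -/
theorem one_place (Y Yi : Matrix (ZMod N) (ZMod N) B0) (hYi : Yi * Y = 1)
    (a : Fin (n + 1) → ZMod N) (j0 : Fin (n + 1)) [Decidable (Cond j0 a)] :
    ∑ r : Fin (n + 1) → ZMod N, (sa a j0 - r j0) •
      D.T (P.tens fun j => Yi (a j) (r j) * Y (r j) (sa a j)) =
    if Cond j0 a then ∑ c, (sa a j0 - c) • D0.T (Yi (a j0) c * Y c (sa a j0)) else 0 := by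
  classical
  let g : ZMod N → Fin (n + 1) → ZMod N → B0 := fun c j x =>
    if j = j0 then (if x = c then Yi (a j0) c * Y c (sa a j0) else 0)
    else Yi (a j) x * Y x (sa a j)
  have e1 : ∀ r : Fin (n + 1) → ZMod N, (sa a j0 - r j0) •
      D.T (P.tens fun j => Yi (a j) (r j) * Y (r j) (sa a j)) =
      ∑ c, (sa a j0 - c) • D.T (P.tens fun j => g c j (r j)) := by
    intro r
    rw [Finset.sum_eq_single (r j0)]
    · congr 3
      funext j
      by_cases h : j = j0
      · subst h
        simp [g]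
      · simp [g, h]
    · intro c _ hc
      have : P.tens (fun j => g c j (r j)) = 0 := by
        refine P.tens_zero _ j0 ?_
        simp [g, Ne.symm hc]
      rw [this, map_zero, smul_zero]
    · intro h
      exact absurd (Finset.mem_univ _) h
  rw [Finset.sum_congr rfl fun r _ => e1 r, Finset.sum_comm]
  have e2 : ∀ c, ∑ r : Fin (n + 1) → ZMod N, (sa a j0 - c) • D.T (P.tens fun j => g c j (r j)) =
      (sa a j0 - c) • (if Cond j0 a then D0.T (Yi (a j0) c * Y c (sa a j0)) else 0) := by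
    intro c
    rw [← Finset.smul_sum, ← map_sum, ← P.tens_sum]
    congr 1
    have e3 : ∀ j, j ≠ j0 → ∑ x, g c j x = if a j = sa a j then 1 else 0 := by
      intro j hj
      have h1 : ∑ x, g c j x = (Yi * Y) (a j) (sa a j) := by
        rw [Matrix.mul_apply]
        refine Finset.sum_congr rfl fun x _ => ?_
        simp [g, hj]
      rw [h1, hYi, Matrix.one_apply]
    have e4 : ∑ x, g c j0 x = Yi (a j0) c * Y c (sa a j0) := by
      simp [g]
    by_cases h : Cond j0 a
    · rw [if_pos h, P.tens_single _ j0 _ e4, P.T_pl]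
      intro j hj
      rw [e3 j hj, if_pos (h j hj)]
    · rw [if_neg h]
      unfold Cond at h
      push Not at h
      obtain ⟨j, hj, hj2⟩ := h
      rw [P.tens_zero _ j, map_zero]
      rw [e3 j hj, if_neg hj2]
  rw [Finset.sum_congr rfl fun c _ => e2 c]
  by_cases h : Cond j0 a
  · simp only [if_pos h]
  · simp only [if_neg h, smul_zero, Finset.sum_const_zero]

omit [NeZero N'] in
/-- The value at one orbit. -/
theorem t_const (D0 : Tw B0 M) (Y Yi : Matrix (ZMod N) (ZMod N) B0)
    (hY : ∀ a b, Y (a + 1) (b + 1) = D0.s (Y a b))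
    (hYi : ∀ a b, Yi (a + 1) (b + 1) = D0.s (Yi a b)) (b : ZMod N) :
    ∑ c, (b + 1 - c) • D0.T (Yi b c * Y c (b + 1)) =
      ∑ c, ((0 : ZMod N) + 1 - c) • D0.T (Yi 0 c * Y c (0 + 1)) := by
  have h1 : ∀ b : ZMod N, ∑ c, (b + 1 + 1 - c) • D0.T (Yi (b + 1) c * Y c (b + 1 + 1)) =
      ∑ c, (b + 1 - c) • D0.T (Yi b c * Y c (b + 1)) := by
    intro b
    rw [← Equiv.sum_comp (Equiv.addRight (1 : ZMod N))]
    refine Finset.sum_congr rfl fun c _ => ?_
    rw [Equiv.coe_addRight, hYi, hY, ← map_mul, D0.T_s]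
    congr 1
    ring
  have h2 : ∀ k : ℕ, ∑ c, ((k : ZMod N) + 1 - c) • D0.T (Yi k c * Y c (k + 1)) =
      ∑ c, ((0 : ZMod N) + 1 - c) • D0.T (Yi 0 c * Y c (0 + 1)) := by
    intro k
    induction k with
    | zero => rw [Nat.cast_zero]
    | succ k ih => rw [Nat.cast_succ, h1, ih]
  have h3 := h2 b.val
  rwa [ZMod.natCast_zmod_val] at h3

end Main

end EVAx

open EVAx in
/-- EVA. -/
theorem EVA_thm : s_EVA := by
  intro n N N' _ _ B0 B M _ _ _ _ D0 D P IF I0 hN hσ hι h0σ h0φ h0ι Y Yi hY hYi _ hYiY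
  classical
  set t : M := ∑ c, ((0 : ZMod N) + 1 - c) • D0.T (Yi 0 c * Y c (0 + 1)) with ht
  -- the right hand side
  have hR : dlog D0 I0 Y Yi = t := by
    unfold dlog wt
    rw [Finset.sum_eq_single (0 : ZMod N)]
    · rw [if_pos (h0φ 0)]
      refine Finset.sum_congr rfl fun c _ => ?_
      rw [h0ι, h0ι, h0σ]
    · intro a _ ha
      rw [if_neg]
      rw [h0φ]
      exact ha
    · intro h
      exact absurd (Finset.mem_univ _) h
  rw [hR]
  -- the left hand side
  have hσf : ∀ a, IF.σ (full a) = full (sa a) := fun a => Subtype.ext (by rw [hσ, sg_full])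
  have hφf : ∀ a, IF.φ (full (sa a)) = IF.φ (full a) + 1 := fun a => by rw [← hσf, IF.φ_σ]
  have hιf : ∀ a : Fin (n + 1) → ZMod N, IF.ι (full a) = ∑ j, a j := fun a => hι a _
  have hprod : ∀ S S' : FF n N, bff (tm P (Eo 1 Yi)) S S' * bff (tm P (Eo 1 Y)) S' (IF.σ S) =
      P.tens (fun j => Eo 1 Yi (S.1 j) (S'.1 j) * Eo 1 Y (S'.1 j) (sg S.1 j)) := by
    intro S S'
    show tm P (Eo 1 Yi) S.1 S'.1 * tm P (Eo 1 Y) S'.1 (IF.σ S).1 = _
    rw [tm_apply, tm_apply, P.tens_mul, hσ]
  -- not full indices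
  have hnf : ∀ S : FF n N, S ∉ Set.range (full : (Fin (n + 1) → ZMod N) → FF n N) →
      ∑ S', (IF.ι (IF.σ S) - IF.ι S') •
        D.T (bff (tm P (Eo 1 Yi)) S S' * bff (tm P (Eo 1 Y)) S' (IF.σ S)) = 0 := by
    intro S hS
    refine Finset.sum_eq_zero fun S' _ => ?_
    rw [hprod, not_full P Y Yi S (exists_none hS), map_zero, smul_zero]
  -- full indices
  have hf : ∀ a : Fin (n + 1) → ZMod N, ∑ S', (IF.ι (IF.σ (full a)) - IF.ι S') •
      D.T (bff (tm P (Eo 1 Yi)) (full a) S' * bff (tm P (Eo 1 Y)) S' (IF.σ (full a))) =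
      ∑ j0, if Cond j0 a then t else 0 := by
    intro a
    have e1 : ∑ r : Fin (n + 1) → ZMod N, (∑ j, (sa a j - r j)) •
        D.T (P.tens fun j => Yi (a j) (r j) * Y (r j) (sa a j)) =
        ∑ S', (IF.ι (IF.σ (full a)) - IF.ι S') •
        D.T (bff (tm P (Eo 1 Yi)) (full a) S' * bff (tm P (Eo 1 Y)) S' (IF.σ (full a))) := by
      refine Fintype.sum_of_injective full full_inj _ _ (fun S' hS' => ?_) fun r => ?_
      · obtain ⟨j, hj⟩ := exists_none hS'
        rw [hprod, P.tens_zero _ j, map_zero, smul_zero]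
        rw [hj]
        have : Eo 1 Yi ((full a).1 j) none = 0 := rfl
        rw [this, zero_mul]
      · rw [hprod, hσf, hιf, hιf, ← Finset.sum_sub_distrib, sg_full]
        rfl
    rw [← e1]
    have e2 : ∀ r : Fin (n + 1) → ZMod N, (∑ j, (sa a j - r j)) •
        D.T (P.tens fun j => Yi (a j) (r j) * Y (r j) (sa a j)) =
        ∑ j0, (sa a j0 - r j0) • D.T (P.tens fun j => Yi (a j) (r j) * Y (r j) (sa a j)) :=
      fun r => Finset.sum_smul
    rw [Finset.sum_congr rfl fun r _ => e2 r, Finset.sum_comm]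
    refine Finset.sum_congr rfl fun j0 _ => ?_
    rw [one_place P Y Yi hYiY a j0]
    by_cases h : Cond j0 a
    · rw [if_pos h, if_pos h, cond_succ h, t_const D0 Y Yi hY hYi]
    · rw [if_neg h, if_neg h]
  have e3 : dlog D IF (bff (tm P (Eo 1 Y))) (bff (tm P (Eo 1 Yi))) =
      ∑ a : Fin (n + 1) → ZMod N, if IF.φ (full a) = 0 then
        (∑ j0, if Cond j0 a then t else 0) else 0 := by
    unfold dlog wt
    refine (Fintype.sum_of_injective full full_inj _ _ (fun S hS => ?_) fun a => ?_).symm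
    · rw [hnf S hS, ite_self]
    · rw [hf]
  have e4 : ∀ a : Fin (n + 1) → ZMod N, (if IF.φ (full a) = 0 then
        (∑ j0, if Cond j0 a then t else 0) else 0) =
      ∑ j0, if Cond j0 a then (if IF.φ (full a) = 0 then t else 0) else 0 := by
    intro a
    split_ifs
    · rfl
    · simp
  have e5 : ∀ j0 : Fin (n + 1), (∑ a : Fin (n + 1) → ZMod N,
      if Cond j0 a then (if IF.φ (full a) = 0 then t else 0) else 0) =
      ∑ b : ZMod N, if IF.φ (full (stf j0 b)) = 0 then t else 0 := by
    intro j0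
    refine (Fintype.sum_of_injective (stf j0) (stf_inj j0) _ _ (fun a ha => ?_) fun b => ?_).symm
    · refine if_neg fun h => ha ⟨a 0, (eq_stf h).symm⟩
    · rw [if_pos (cond_stf j0 b)]
  rw [e3, Finset.sum_congr rfl fun a _ => e4 a, Finset.sum_comm,
    Finset.sum_congr rfl fun j0 _ => e5 j0]
  exact count hN (fun a => IF.φ (full a)) hφf t

end Pool.Agent.WhC
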