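import Pool.Agent.WhC.Ten

/-!
# The block identity
-/

set_option autoImplicit false

namespace Pool.Agent.WhC

open Finset

section Om

variable {N : ℕ} [NeZero N] {B0 : Type*} [Ring B0]

/-- matrices on `{*} ∪ ZMod N` -/
def om (x : B0) (r c : ZMod N → B0) (Z : Matrix (ZMod N) (ZMod N) B0) :
    Matrix (Option (ZMod N)) (Option (ZMod N)) B0
  | none, none => x
  | none, some b => r b
  | some a, none => c a
  | some a, some b => Z a b

theorem om_mul (x x' : B0) (r c r' c' : ZMod N → B0) (Z Z' : Matrix (ZMod N) (ZMod N) B0) :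
    om x r c Z * om x' r' c' Z' = om (x * x' + ∑ b, r b * c' b)
      (fun b => x * r' b + ∑ a, r a * Z' a b) (fun a => c a * x' + ∑ b, Z a b * c' b)
      (fun a b => c a * r' b + (Z * Z') a b) := by
  ext i j
  rw [Matrix.mul_apply, Fintype.sum_option]
  cases i <;> cases j <;> rfl

omit [NeZero N] in
theorem om_one : om (1 : B0) (fun _ => 0) (fun _ => 0) 1 =
    (1 : Matrix (Option (ZMod N)) (Option (ZMod N)) B0) := by
  ext i j
  cases i with
  | none =>
    cases j with
    | none => rw [Matrix.one_apply_eq]; rfl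
    | some b => rw [Matrix.one_apply_ne (by simp)]; rfl
  | some a =>
    cases j with
    | none => rw [Matrix.one_apply_ne (by simp)]; rfl
    | some b =>
      show (1 : Matrix (ZMod N) (ZMod N) B0) a b = _
      rw [Matrix.one_apply, Matrix.one_apply]
      simp

omit [NeZero N] in
theorem om_eqv {M : Type*} [AddCommGroup M] (D0 : Tw B0 M) {x : B0} {r c : ZMod N → B0}
    {Z : Matrix (ZMod N) (ZMod N) B0} (hx : D0.s x = x) (hr : ∀ a, r (a + 1) = D0.s (r a))
    (hc : ∀ a, c (a + 1) = D0.s (c a)) (hZ : ∀ a b, Z (a + 1) (b + 1) = D0.s (Z a b)) :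
    Eqv D0 sh sh (om x r c Z) := by
  intro i j
  cases i with
  | none =>
    cases j with
    | none => exact hx.symm
    | some b => exact hr b
  | some a =>
    cases j with
    | none => exact hc a
    | some b => exact hZ a b

end Om

section Base

variable {N : ℕ} [NeZero N] {B0 : Type*} [Ring B0] (α : ZMod N → B0) (w wi : B0)

/-- `1 - α β` -/
def Yv : Matrix (ZMod N) (ZMod N) B0 := fun i j => (if i = j then 1 else 0) - α i

/-- its inverse -/
def Yvi : Matrix (ZMod N) (ZMod N) B0 := fun i j => (if i = j then 1 else 0) + α i * wi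

variable {α w wi}

theorem Yv_inv (hn : w + ∑ a, α a = 1) (h1 : w * wi = 1) (h2 : wi * w = 1) :
    Yv α * Yvi α wi = 1 ∧ Yvi α wi * Yv α = 1 := by
  have hs : ∑ a, α a = 1 - w := by rw [← hn]; abel
  constructor
  · ext i j
    rw [Matrix.mul_apply, Matrix.one_apply]
    have e : ∀ k, Yv α i k * Yvi α wi k j = (if k = j then (if i = k then 1 else 0) else 0) +
        (if i = k then α k * wi else 0) - (if k = j then α i else 0) - α i * α k * wi := by
      intro k
      unfold Yv Yvi
      rw [sub_mul, mul_add, mul_add]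
      simp only [ite_mul, mul_ite, one_mul, mul_one, zero_mul, mul_zero, ← mul_assoc]
      abel
    rw [Finset.sum_congr rfl fun k _ => e k, Finset.sum_sub_distrib, Finset.sum_sub_distrib,
      Finset.sum_add_distrib, Finset.sum_ite_eq, Finset.sum_ite_eq', Finset.sum_ite_eq',
      if_pos (Finset.mem_univ _), if_pos (Finset.mem_univ _), if_pos (Finset.mem_univ _),
      ← Finset.sum_mul, ← Finset.mul_sum, hs, mul_sub, sub_mul, mul_one, mul_assoc (α i) w, h1,
      mul_one]
    abel
  · ext i j
    rw [Matrix.mul_apply, Matrix.one_apply]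
    have e : ∀ k, Yvi α wi i k * Yv α k j = (if k = j then (if i = k then 1 else 0) else 0) -
        (if i = k then α k else 0) + (if k = j then α i * wi else 0) - α i * wi * α k := by
      intro k
      unfold Yv Yvi
      rw [add_mul, mul_sub, mul_sub]
      simp only [ite_mul, mul_ite, one_mul, mul_one, zero_mul, mul_zero, ← mul_assoc]
      abel
    rw [Finset.sum_congr rfl fun k _ => e k, Finset.sum_sub_distrib, Finset.sum_add_distrib,
      Finset.sum_sub_distrib, Finset.sum_ite_eq, Finset.sum_ite_eq', Finset.sum_ite_eq',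
      if_pos (Finset.mem_univ _), if_pos (Finset.mem_univ _), if_pos (Finset.mem_univ _),
      ← Finset.mul_sum, hs, mul_sub, mul_one, mul_assoc (α i), h2, mul_one]
    abel

/-- `[1 0; α 1]` -/
def Lo (α : ZMod N → B0) : Matrix (Option (ZMod N)) (Option (ZMod N)) B0 := om 1 (fun _ => 0) α 1

/-- `[1 β; 0 1]` -/
def Vo (N : ℕ) (r : B0) : Matrix (Option (ZMod N)) (Option (ZMod N)) B0 :=
  om 1 (fun _ => r) (fun _ => 0) 1

/-- diagonal blocks -/
def Eo (x : B0) (Z : Matrix (ZMod N) (ZMod N) B0) :
    Matrix (Option (ZMod N)) (Option (ZMod N)) B0 := om x (fun _ => 0) (fun _ => 0) Z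

theorem Lo_inv (α : ZMod N → B0) : Lo α * Lo (fun a => -α a) = 1 := by
  unfold Lo
  rw [om_mul, ← om_one]
  congr 1
  · simp
  · funext b; simp
  · funext a
    simp [Matrix.one_apply]
  · ext a b
    simp

theorem Vo_inv (r : B0) : Vo N r * Vo N (-r) = 1 := by
  unfold Vo
  rw [om_mul, ← om_one]
  congr 1
  · simp
  · funext b
    simp [Matrix.one_apply]
  · funext a; simp
  · ext a b
    simp

theorem Eo_inv {x xi : B0} {Z Zi : Matrix (ZMod N) (ZMod N) B0} (hx : x * xi = 1)
    (hZ : Z * Zi = 1) : Eo x Z * Eo xi Zi = 1 := by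
  unfold Eo
  rw [om_mul, ← om_one]
  congr 1
  · simp [hx]
  · funext b; simp
  · funext a; simp
  · ext a b
    simp [hZ]

theorem block0 (hn : w + ∑ a, α a = 1) :
    Lo α * Eo 1 (Yv α) * Vo N 1 = Vo N 1 * Eo w 1 * Lo α := by
  unfold Lo Eo Vo
  rw [om_mul, om_mul, om_mul, om_mul]
  congr 1
  · simp [Matrix.one_apply, hn]
  · funext b
    simp [Matrix.one_apply]
  · funext a
    simp [Matrix.one_apply]
  · ext a b
    simp [Yv, Matrix.one_apply]

end Base

end Pool.Agent.WhC
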