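import Pool.Agent.WhC.Fin

/-!
# Coherence of the integral logarithms: the final statement, from the module `EVA`
-/

set_option autoImplicit false

namespace Pool.Agent.WhC

open Finset Pool.Agent.WhK

universe u

/-- the coherence theorem (the form used in `Pool/Agent/SUR/St2.lean`) -/
theorem gamVal_coh_of (hE : s_EVA.{u, u, u}) (𝔐 K : Type u) [Monoid 𝔐] (cl : 𝔐 → K)
    (hcl : ∀ a b, cl (a * b) = cl (b * a)) (p m : ℕ) [Fact p.Prime] (hp : p ≠ 2)
    (w : (MonoidAlgebra ℤ 𝔐)ˣ) (k : K) :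
    ZMod.castHom (pow_dvd_pow p (Nat.le_succ (m + 1))) (ZMod (p ^ (m + 1)))
      (gamVal cl hcl p (m + 1) w k) = gamVal cl hcl p m w k :=
  DFunLike.congr_fun (coh_of hE 𝔐 K cl hcl p m hp w) k

end Pool.Agent.WhC
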