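import Pool.Agent.WhC.Dlog
import Pool.Agent.Lib_helper44.Wh.Gamma

/-!
# Coherence of the integral logarithms: definitions and statements of the modules

`B` is the `p`-fold tensor power (`p = n + 1`) of `B0` with places `pl j`; positions `0 ≤ j < p`.
-/

set_option autoImplicit false

namespace Pool.Agent.WhC

open Finset Pool.Agent.WhK

/-- places of a `(n + 1)`-fold cyclic tensor power -/
structure Places (n : ℕ) {B0 B M : Type*} [Ring B0] [Ring B] [AddCommGroup M] (D0 : Tw B0 M)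
    (D : Tw B M) where
  pl : Fin (n + 1) → (B0 →+* B)
  comm : ∀ i j, i ≠ j → ∀ x y, pl i x * pl j y = pl j y * pl i x
  s_succ : ∀ (j : Fin n) (x : B0), D.s (pl j.succ x) = pl j.castSucc x
  s_zero : ∀ x, D.s (pl 0 x) = pl (Fin.last n) (D0.s x)
  T_zero : ∀ x, D.T (pl 0 x) = D0.T x

/-- the pure tensors -/
def Places.tens {n : ℕ} {B0 B M : Type*} [Ring B0] [Ring B] [AddCommGroup M] {D0 : Tw B0 M}
    {D : Tw B M} (P : Places n D0 D) (x : Fin (n + 1) → B0) : B :=
  (List.ofFn fun j => P.pl j (x j)).prod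

/-- index set of the tensor powers of the matrices on `{*} ∪ ZMod N` -/
abbrev Hat (n N : ℕ) : Type := Fin (n + 1) → Option (ZMod N)

/-- shift on `{*} ∪ ZMod N` -/
def sh {N : ℕ} : Option (ZMod N) → Option (ZMod N) := Option.map (· + 1)

/-- the generator of the cyclic group of order `(n + 1) N` acting on `Hat n N` -/
def sg {n N : ℕ} (S : Hat n N) : Hat n N :=
  Fin.snoc (α := fun _ => Option (ZMod N)) (fun j : Fin n => S j.succ) (sh (S 0))

/-- the nonempty indices -/
abbrev FF (n N : ℕ) : Type := {S : Hat n N // S ≠ fun _ => none}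

/-- the twisted trace data of level `N` -/
noncomputable def tw {𝔐 K : Type*} [Monoid 𝔐] (N : ℕ) [NeZero N] (cl : 𝔐 → K)
    (hcl : ∀ a b, cl (a * b) = cl (b * a)) : Tw (MonoidAlgebra ℤ (ZMod N → 𝔐)) (K →₀ ZMod N) where
  s := rho 1
  T := Tmod cl
  T_mul := (cycData N cl hcl).T_mul

/-- reduction of the values -/
noncomputable def red (K : Type*) {N N' : ℕ} (h : N ∣ N') : (K →₀ ZMod N') →+ (K →₀ ZMod N) :=
  Finsupp.mapRange.addMonoidHom (ZMod.castHom h (ZMod N)).toAddMonoidHom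

/-- the twisted trace data of level `N'` with values modulo `N` -/
noncomputable def twr {𝔐 K : Type*} [Monoid 𝔐] {N N' : ℕ} [NeZero N'] (h : N ∣ N') (cl : 𝔐 → K)
    (hcl : ∀ a b, cl (a * b) = cl (b * a)) : Tw (MonoidAlgebra ℤ (ZMod N' → 𝔐)) (K →₀ ZMod N) where
  s := rho 1
  T := (red K h).comp (Tmod cl)
  T_mul a b := congrArg (red K h) ((cycData N' cl hcl).T_mul a b)

/-! ### Statements -/

/-- PHI: the set `FF` is a free `C_{N'}`-set, `N = p^(m+1)`, `N' = p^(m+2)`, `p = n + 1`.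
Proof. `ext S k := (S (k % p)).map (· + (k / p : ℕ))` (`k : ℕ`): `ext (sg S) k = ext S (k + 1)`, so
`(sg^[r] S) j = ext S (j + r)`; `sg^[p] S = sh ∘ S`, `sg^[p N] S = S`; so `sg` is bijective and
preserves `FF` (`sg (fun _ => none) = fun _ => none`). Free: let `IsPeriodicPt sg k S`, `S ≠ none`; claim
`p^(m+2) ∣ k`. If `p ∤ k` then `gcd k N' = 1` (`Function.IsPeriodicPt.gcd`), `sg S = S`, so all `S j` are
equal and `sh (S 0) = S 0`, impossible (`N > 1`, `S ≠ none`). So `k = p q`,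
`S j = (S j).map (· + q)`, some `S j = some a`: `N ∣ q`. `φ`: choose a representative in every
orbit of `σ` (`Equiv.Perm.SameCycle.setoid`, `Quotient.out`), `(σ ^ i) (rep S) = S`, `φ S = (i : ZMod N')`. -/
def s_PHI : Prop := ∀ (p m n : ℕ), p.Prime → n + 1 = p →
  ∃ (σ : Equiv.Perm (FF n (p ^ (m + 1)))) (φ : FF n (p ^ (m + 1)) → ZMod (p ^ (m + 2))),
    (∀ S, (σ S).1 = sg S.1) ∧ ∀ S, φ (σ S) = φ S + 1

universe u

/-- PLC: the places. `(pl j x) i = x (i.val / p)` if `i.val % p = j`, else `1` (monoid homomorphisms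
`(ZMod N → 𝔐) →* (ZMod N' → 𝔐)`, `MonoidAlgebra.mapDomainRingHom`), `N' = p N`.
Commutation: different supports. `s_succ`, `s_zero`: `(i + 1).val` is `i.val + 1` or `0`.
`T_zero`: `prodSeq (pl 0 x) = prodSeq x` (`List.range`, induction on `N` for the products over
`List.range (p * k)`) and `red (Tint mod N') = Tint mod N`.
`extPow`: the coefficient of `tens (fun _ => extPow u)` at `g` is `∏ j, ∏ a, u.coeff (g (j + p a))`:
write `extPow u = ∑ single` (see `mapDomain_extPow_prod`), `tens` is multilinear and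
`tens (single (y j) (r j)) = single (fun i => y (i % p) (i / p)) (∏ r j)`. `Wof`: `diagHom p (m+1)` composed with the
places of level `p^m` is the places of level `p^(m+1)` composed with `diagHom p m`, so
`tens (fun _ => Wof p m u) = mapDomain (diagHom p (m+1)) (tens (fun _ => extPow (ZMod (p^m)) u))`
(places of level `p^m` → `p^(m+1)`) `= mapDomain (diagHom p (m+1)) (extPow (ZMod (p^(m+1))) u)`. -/
def s_PLC : Prop := ∀ (𝔐 K : Type u) [Monoid 𝔐] (cl : 𝔐 → K)
  (hcl : ∀ a b, cl (a * b) = cl (b * a)) (p m n : ℕ) [Fact p.Prime], n + 1 = p →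
  ∃ P : Places n (tw (p ^ (m + 1)) cl hcl) (twr (pdvd p (m + 1)) cl hcl),
    ∀ u : MonoidAlgebra ℤ 𝔐,
      P.tens (fun _ => extPow (ZMod (p ^ (m + 1))) u) = extPow (ZMod (p ^ (m + 2))) u ∧
      P.tens (fun _ => Wof p m u) = Wof p (m + 1) u

end Pool.Agent.WhC
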