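import Mathlib

/-!
# Logarithmic derivative of equivariant matrices on free index sets

`Tw B M`: a ring `B` with an endomorphism `s` and a twisted trace `T (a b) = T (b s(a))`.
`Idx R N A`: an index set with a permutation `σ`, an equivariant map `φ` to `ZMod N` (so the action is free)
and a mark `ι` with values in `R`. `dlog D I X Xi` is the logarithmic derivative of the equivariant matrix
`X` (with inverse `Xi`), evaluated at the coset of `σ`.
-/

set_option autoImplicit false

namespace Pool.Agent.WhC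

open Finset

/-- a ring with an endomorphism and a twisted trace -/
structure Tw (B M : Type*) [Ring B] [AddCommGroup M] where
  s : B →+* B
  T : B →+ M
  T_mul : ∀ a b, T (a * b) = T (b * s a)

theorem Tw.T_s {B M : Type*} [Ring B] [AddCommGroup M] (D : Tw B M) (x : B) : D.T (D.s x) = D.T x := by
  have h := D.T_mul x 1
  rw [mul_one, one_mul] at h
  exact h.symm

/-- a free index set with a mark -/
structure Idx (R : Type*) [CommRing R] (N : ℕ) (A : Type*) where
  σ : Equiv.Perm A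
  φ : A → ZMod N
  φ_σ : ∀ a, φ (σ a) = φ a + 1
  ι : A → R
  ι_σ : ∀ a, ι (σ a) = ι a + 1

section

variable {R : Type*} [CommRing R] {N : ℕ} {B M : Type*} [Ring B] [AddCommGroup M] [Module R M]
variable {A A' A'' : Type*} [Fintype A] [Fintype A'] [Fintype A'']

/-- equivariant matrices -/
def Eqv (D : Tw B M) (σ : A → A) (σ' : A' → A') (X : Matrix A A' B) : Prop :=
  ∀ a b, X (σ a) (σ' b) = D.s (X a b)

omit [Module R M] in
theorem cyc [NeZero N] (I : Idx R N A) (J : Idx R N A') (G : A → A' → M)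
    (hG : ∀ a b, G (I.σ a) (J.σ b) = G a b) :
    (∑ a, if I.φ a = 0 then ∑ b, G a b else 0) = ∑ b, if J.φ b = 0 then ∑ a, G a b else 0 := by
  classical
  let S : ZMod N → ZMod N → M :=
    fun c d => ∑ a, ∑ b, if I.φ a = c ∧ J.φ b = d then G a b else 0
  have hS : ∀ c d, S c d = ∑ a, ∑ b, if I.φ a = c ∧ J.φ b = d then G a b else 0 := fun _ _ => rfl
  have h1 : ∀ c d, S (c + 1) (d + 1) = S c d := by
    intro c d
    rw [hS, hS, ← Equiv.sum_comp I.σ]
    refine Finset.sum_congr rfl fun a _ => ?_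
    rw [← Equiv.sum_comp J.σ]
    refine Finset.sum_congr rfl fun b _ => ?_
    rw [hG, I.φ_σ, J.φ_σ]
    simp only [add_left_inj]
  have h2 : ∀ (k : ℕ) c d, S (c + k) (d + k) = S c d := by
    intro k
    induction k with
    | zero => intro c d; rw [Nat.cast_zero, add_zero, add_zero]
    | succ k ih =>
      intro c d
      rw [Nat.cast_succ, ← add_assoc, ← add_assoc, h1, ih]
  have h3 : ∀ k : ZMod N, S k 0 = S 0 (-k) := by
    intro k
    have h := h2 k.val 0 (-k)
    rw [ZMod.natCast_zmod_val, zero_add, neg_add_cancel] at h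
    exact h
  have e1 : (∑ a, if I.φ a = 0 then ∑ b, G a b else 0) = ∑ d, S 0 d := by
    have : ∑ d, S 0 d = ∑ a, ∑ d, ∑ b, if I.φ a = 0 ∧ J.φ b = d then G a b else 0 :=
      Finset.sum_comm
    rw [this]
    refine Finset.sum_congr rfl fun a _ => ?_
    by_cases h : I.φ a = 0
    · rw [if_pos h, Finset.sum_comm]
      refine Finset.sum_congr rfl fun b _ => ?_
      simp [h]
    · rw [if_neg h]
      symm
      refine Finset.sum_eq_zero fun b _ => Finset.sum_eq_zero fun d _ => ?_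
      simp [h]
  have e2 : (∑ b, if J.φ b = 0 then ∑ a, G a b else 0) = ∑ c, S c 0 := by
    have : ∑ c, S c 0 = ∑ b, ∑ c, ∑ a, if I.φ a = c ∧ J.φ b = 0 then G a b else 0 := by
      have h4 : ∀ c, S c 0 = ∑ b, ∑ a, if I.φ a = c ∧ J.φ b = 0 then G a b else 0 :=
        fun c => Finset.sum_comm
      rw [Finset.sum_congr rfl fun c _ => h4 c]
      exact Finset.sum_comm
    rw [this]
    refine Finset.sum_congr rfl fun b _ => ?_
    by_cases h : J.φ b = 0
    · rw [if_pos h, Finset.sum_comm]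
      refine Finset.sum_congr rfl fun a _ => ?_
      simp [h]
    · rw [if_neg h]
      symm
      refine Finset.sum_eq_zero fun a _ => Finset.sum_eq_zero fun d _ => ?_
      simp [h]
  rw [e1, e2, Finset.sum_congr rfl fun c _ => h3 c]
  exact (Fintype.sum_equiv (Equiv.neg (ZMod N)) _ _ fun d => by simp)

/-- weighted twisted trace -/
def wt (D : Tw B M) (I : Idx R N A) (J : Idx R N A') (P : Matrix A A' B) (Q : Matrix A' A B) : M :=
  ∑ a, if I.φ a = 0 then ∑ b, (I.ι (I.σ a) - J.ι b) • D.T (P a b * Q b (I.σ a)) else 0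

theorem wt_add_left (D : Tw B M) (I : Idx R N A) (J : Idx R N A') (P P' : Matrix A A' B)
    (Q : Matrix A' A B) : wt D I J (P + P') Q = wt D I J P Q + wt D I J P' Q := by
  unfold wt
  rw [← Finset.sum_add_distrib]
  refine Finset.sum_congr rfl fun a _ => ?_
  split_ifs
  · rw [← Finset.sum_add_distrib]
    refine Finset.sum_congr rfl fun b _ => ?_
    rw [Matrix.add_apply, add_mul, map_add, smul_add]
  · rw [add_zero]

theorem wt_sub_right (D : Tw B M) (I : Idx R N A) (J : Idx R N A') (P : Matrix A A' B)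
    (Q Q' : Matrix A' A B) : wt D I J P (Q - Q') = wt D I J P Q - wt D I J P Q' := by
  unfold wt
  rw [← Finset.sum_sub_distrib]
  refine Finset.sum_congr rfl fun a _ => ?_
  split_ifs
  · rw [← Finset.sum_sub_distrib]
    refine Finset.sum_congr rfl fun b _ => ?_
    rw [Matrix.sub_apply, mul_sub, map_sub, smul_sub]
  · rw [sub_zero]

theorem wt_diag (D : Tw B M) (I : Idx R N A) (P Q : Matrix A A B)
    (hQ : ∀ a b, a ≠ b → Q a b = 0) : wt D I I P Q = 0 := by
  classical
  unfold wt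
  refine Finset.sum_eq_zero fun a _ => ?_
  split_ifs
  · refine Finset.sum_eq_zero fun b _ => ?_
    by_cases h : b = I.σ a
    · rw [h, sub_self, zero_smul]
    · rw [hQ _ _ h, mul_zero, map_zero, smul_zero]
  · rfl

theorem wt_leib [NeZero N] (D : Tw B M) (I : Idx R N A) (J : Idx R N A') (K : Idx R N A'')
    {P : Matrix A A' B} {Q : Matrix A' A'' B} {X : Matrix A'' A B}
    (hP : Eqv D I.σ J.σ P) (hQ : Eqv D J.σ K.σ Q) (hX : Eqv D K.σ I.σ X) :
    wt D I J P (Q * X) = wt D I K (P * Q) X + wt D K J (X * P) Q := by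
  -- the common summand
  let H : A → A' → A'' → M := fun a b c => D.T (P a b * Q b c * X c (I.σ a))
  have hH : ∀ a b c, H a b c = D.T (P a b * Q b c * X c (I.σ a)) := fun _ _ _ => rfl
  have hinv : ∀ a b c, H (I.σ a) (J.σ b) (K.σ c) = H a b c := by
    intro a b c
    rw [hH, hH, hP, hQ, hX, ← map_mul, ← map_mul, D.T_s]
  have e1 : wt D I J P (Q * X) = ∑ a, if I.φ a = 0 then
      ∑ b, ∑ c, (I.ι (I.σ a) - J.ι b) • H a b c else 0 := by
    unfold wt
    refine Finset.sum_congr rfl fun a _ => ?_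
    split_ifs
    · refine Finset.sum_congr rfl fun b _ => ?_
      rw [Matrix.mul_apply, Finset.mul_sum, map_sum, Finset.smul_sum]
      refine Finset.sum_congr rfl fun c _ => ?_
      rw [hH, mul_assoc]
    · rfl
  have e2 : wt D I K (P * Q) X = ∑ a, if I.φ a = 0 then
      ∑ b, ∑ c, (I.ι (I.σ a) - K.ι c) • H a b c else 0 := by
    unfold wt
    refine Finset.sum_congr rfl fun a _ => ?_
    split_ifs
    · rw [Finset.sum_comm]
      refine Finset.sum_congr rfl fun c _ => ?_
      rw [Matrix.mul_apply, Finset.sum_mul, map_sum, Finset.smul_sum]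
    · rfl
  have e3 : wt D K J (X * P) Q = ∑ c, if K.φ c = 0 then
      ∑ a, ∑ b, (K.ι c - J.ι b) • H a b c else 0 := by
    unfold wt
    refine Finset.sum_congr rfl fun c _ => ?_
    split_ifs
    · rw [← Equiv.sum_comp J.σ, Finset.sum_comm]
      refine Finset.sum_congr rfl fun b _ => ?_
      rw [Matrix.mul_apply, Finset.sum_mul, map_sum, Finset.smul_sum, ← Equiv.sum_comp I.σ]
      refine Finset.sum_congr rfl fun a _ => ?_
      have hs : D.s (P a b * Q b c) = P (I.σ a) (J.σ b) * Q (J.σ b) (K.σ c) := by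
        rw [map_mul, hP, hQ]
      rw [hH, D.T_mul (P a b * Q b c), hs, ← mul_assoc, K.ι_σ, J.ι_σ]
      congr 1
      ring
    · rfl
  have e4 : (∑ c, if K.φ c = 0 then ∑ a, ∑ b, (K.ι c - J.ι b) • H a b c else 0) =
      ∑ a, if I.φ a = 0 then ∑ c, ∑ b, (K.ι c - J.ι b) • H a b c else 0 := by
    refine (cyc I K (fun a c => ∑ b, (K.ι c - J.ι b) • H a b c) fun a c => ?_).symm
    rw [← Equiv.sum_comp J.σ]
    refine Finset.sum_congr rfl fun b _ => ?_
    rw [hinv, K.ι_σ, J.ι_σ]
    congr 1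
    ring
  rw [e1, e2, e3, e4, ← Finset.sum_add_distrib]
  refine Finset.sum_congr rfl fun a _ => ?_
  split_ifs
  · rw [Finset.sum_comm (s := (univ : Finset A'')), ← Finset.sum_add_distrib]
    refine Finset.sum_congr rfl fun b _ => ?_
    rw [← Finset.sum_add_distrib]
    refine Finset.sum_congr rfl fun c _ => ?_
    rw [← add_smul]
    congr 1
    ring
  · rw [add_zero]

/-- the logarithmic derivative -/
def dlog (D : Tw B M) (I : Idx R N A) (X Xi : Matrix A A B) : M := wt D I I Xi X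

variable [DecidableEq A] [DecidableEq A']

omit [Fintype A] in
theorem eqv_one (D : Tw B M) (σ : Equiv.Perm A) : Eqv D σ σ (1 : Matrix A A B) := by
  intro a b
  rw [Matrix.one_apply, Matrix.one_apply]
  by_cases h : a = b
  · rw [if_pos h, if_pos (congrArg σ h), map_one]
  · rw [if_neg h, if_neg fun h' => h (σ.injective h'), map_zero]

omit [Fintype A] [Fintype A''] [DecidableEq A] [DecidableEq A'] in
theorem Eqv.mul {D : Tw B M} {σ : A → A} {σ' : Equiv.Perm A'} {σ'' : A'' → A''}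
    {X : Matrix A A' B} {Y : Matrix A' A'' B} (hX : Eqv D σ σ' X) (hY : Eqv D σ' σ'' Y) :
    Eqv D σ σ'' (X * Y) := by
  intro a b
  rw [Matrix.mul_apply, Matrix.mul_apply, map_sum, ← Equiv.sum_comp σ']
  refine Finset.sum_congr rfl fun c _ => ?_
  rw [hX, hY, map_mul]

omit [Fintype A] [Fintype A'] [DecidableEq A] [DecidableEq A'] in
theorem Eqv.sub {D : Tw B M} {σ : A → A} {σ' : A' → A'} {X Y : Matrix A A' B}
    (hX : Eqv D σ σ' X) (hY : Eqv D σ σ' Y) : Eqv D σ σ' (X - Y) := by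
  intro a b
  rw [Matrix.sub_apply, Matrix.sub_apply, hX, hY, map_sub]

omit [Fintype A] [Fintype A'] [DecidableEq A] [DecidableEq A'] in
theorem Eqv.add {D : Tw B M} {σ : A → A} {σ' : A' → A'} {X Y : Matrix A A' B}
    (hX : Eqv D σ σ' X) (hY : Eqv D σ σ' Y) : Eqv D σ σ' (X + Y) := by
  intro a b
  rw [Matrix.add_apply, Matrix.add_apply, hX, hY, map_add]

theorem dlog_mul [NeZero N] (D : Tw B M) (I : Idx R N A) {X Xi Y Yi : Matrix A A B}
    (hX : Eqv D I.σ I.σ X) (hXi : Eqv D I.σ I.σ Xi) (hY : Eqv D I.σ I.σ Y)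
    (hYi : Eqv D I.σ I.σ Yi) (h1 : Xi * X = 1) (h2 : Y * Yi = 1) :
    dlog D I (X * Y) (Yi * Xi) = dlog D I X Xi + dlog D I Y Yi := by
  unfold dlog
  rw [wt_leib D I I I (hYi.mul hXi) hX hY, mul_assoc, h1, mul_one, ← mul_assoc, h2, one_mul,
    add_comm]

/-- `1 - X Ψ` and `1 - Ψ X` -/
theorem dlog_swap [NeZero N] (D : Tw B M) (I : Idx R N A) (J : Idx R N A') {X : Matrix A A' B}
    {Ψ : Matrix A' A B} {Zi : Matrix A' A' B} (hX : Eqv D I.σ J.σ X) (hΨ : Eqv D J.σ I.σ Ψ)
    (hZi : Eqv D J.σ J.σ Zi) (h1 : Zi * (1 - Ψ * X) = 1) (h2 : (1 - Ψ * X) * Zi = 1) :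
    dlog D I (1 - X * Ψ) (1 + X * Zi * Ψ) = dlog D J (1 - Ψ * X) Zi := by
  have hL : (1 + X * Zi * Ψ) * X = X * Zi := by
    have : Zi * (Ψ * X) = Zi - 1 := by
      rw [mul_sub, mul_one] at h1
      rw [← h1]; abel
    rw [Matrix.add_mul, Matrix.one_mul, Matrix.mul_assoc (X * Zi), Matrix.mul_assoc X, this,
      Matrix.mul_sub, Matrix.mul_one]
    abel
  have hR : Ψ * (1 + X * Zi * Ψ) = Zi * Ψ := by
    have : Ψ * X * Zi = Zi - 1 := by
      rw [sub_mul, one_mul] at h2
      rw [← h2]; abel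
    rw [Matrix.mul_add, Matrix.mul_one, ← Matrix.mul_assoc, ← Matrix.mul_assoc, this,
      Matrix.sub_mul, Matrix.one_mul]
    abel
  have hE : Eqv D I.σ I.σ (1 + X * Zi * Ψ) := (eqv_one D I.σ).add ((hX.mul hZi).mul hΨ)
  have hd : ∀ (P : Matrix A A B), wt D I I P 1 = 0 := fun P =>
    wt_diag D I P 1 fun a b h => Matrix.one_apply_ne h
  have hd' : ∀ (P : Matrix A' A' B), wt D J J P 1 = 0 := fun P =>
    wt_diag D J P 1 fun a b h => Matrix.one_apply_ne h
  unfold dlog
  rw [wt_sub_right, wt_sub_right, hd, hd', wt_leib D I I J hE hX hΨ, wt_leib D J J I hZi hΨ hX,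
    hL, hR, add_comm]

end

end Pool.Agent.WhC
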