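import Pool.Agent.WhC.Defs

/-!
# Coherence of the integral logarithms: the free cyclic set of the nonempty indices
-/

set_option autoImplicit false

namespace Pool.Agent.WhC

open Finset Pool.Agent.WhK

namespace PHIx

variable {n N : ℕ}

/-- The extension of `S` to a sequence with `ext S (k + p) = sh (ext S k)`. -/
def ext (S : Hat n N) (k : ℕ) : Option (ZMod N) :=
  (S ⟨k % (n + 1), Nat.mod_lt _ (Nat.succ_pos n)⟩).map (· + ((k / (n + 1) : ℕ) : ZMod N))

theorem ext_mul_add (S : Hat n N) (q j : ℕ) (hj : j < n + 1) :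
    ext S ((n + 1) * q + j) = (S ⟨j, hj⟩).map (· + (q : ZMod N)) := by
  have h1 : ((n + 1) * q + j) % (n + 1) = j := by
    rw [Nat.mul_add_mod, Nat.mod_eq_of_lt hj]
  have h2 : ((n + 1) * q + j) / (n + 1) = q := by
    rw [Nat.mul_add_div (Nat.succ_pos n), Nat.div_eq_of_lt hj, add_zero]
  unfold ext
  rw [h2]
  congr 2
  exact Fin.ext h1

theorem map_zero' (o : Option (ZMod N)) : o.map (· + (0 : ZMod N)) = o := by
  cases o <;> simp

theorem ext_lt (S : Hat n N) (j : Fin (n + 1)) : ext S j = S j := by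
  have h := ext_mul_add S 0 j j.2
  rw [mul_zero, zero_add, Nat.cast_zero, map_zero'] at h
  exact h

theorem ext_sg (S : Hat n N) (k : ℕ) : ext (sg S) k = ext S (k + 1) := by
  obtain ⟨q, j, hj, rfl⟩ : ∃ q j, j < n + 1 ∧ k = (n + 1) * q + j :=
    ⟨k / (n + 1), k % (n + 1), Nat.mod_lt _ (Nat.succ_pos n), (Nat.div_add_mod k (n + 1)).symm⟩
  rw [ext_mul_add _ q j hj]
  by_cases h : j < n
  · have e1 : (sg S) ⟨j, hj⟩ = S ⟨j + 1, by omega⟩ := by
      have h2 := Fin.snoc_castSucc (α := fun _ => Option (ZMod N)) (sh (S 0))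
        (fun j : Fin n => S j.succ) ⟨j, h⟩
      exact h2
    rw [e1, add_assoc, ext_mul_add S q (j + 1) (by omega)]
  · have hjn : j = n := by omega
    subst hjn
    have e1 : (sg S) ⟨j, hj⟩ = sh (S 0) := by
      have h2 := Fin.snoc_last (α := fun _ => Option (ZMod N)) (sh (S 0))
        (fun j : Fin j => S j.succ)
      exact h2
    have e2 : (j + 1) * q + j + 1 = (j + 1) * (q + 1) + 0 := by ring
    rw [e1, e2, ext_mul_add S (q + 1) 0 (Nat.succ_pos j)]
    show ((S 0).map (· + 1)).map (· + (q : ZMod N)) = (S 0).map (· + ((q + 1 : ℕ) : ZMod N))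
    rw [Option.map_map]
    congr 1
    funext x
    show x + 1 + (q : ZMod N) = x + ((q + 1 : ℕ) : ZMod N)
    push_cast
    ring

theorem ext_iter (S : Hat n N) (r k : ℕ) : ext (sg^[r] S) k = ext S (k + r) := by
  induction r generalizing S with
  | zero => rfl
  | succ r ih =>
    rw [Function.iterate_succ_apply, ih, ext_sg]
    congr 1

theorem iter_mul (S : Hat n N) (q : ℕ) :
    sg^[(n + 1) * q] S = fun j => (S j).map (· + (q : ZMod N)) := by
  funext j
  rw [← ext_lt (sg^[(n + 1) * q] S) j, ext_iter, add_comm, ext_mul_add S q j j.2]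

theorem iter_full (S : Hat n N) : sg^[(n + 1) * N] S = S := by
  rw [iter_mul]
  funext j
  rw [ZMod.natCast_self, map_zero']

theorem sg_inj [NeZero N] : Function.Injective (sg : Hat n N → Hat n N) := by
  have h : 0 < (n + 1) * N := Nat.mul_pos (Nat.succ_pos n) (NeZero.pos N)
  obtain ⟨k, hk⟩ := Nat.exists_eq_succ_of_ne_zero h.ne'
  intro S T hST
  have h1 := iter_full S
  have h2 := iter_full T
  rw [hk, Function.iterate_succ_apply] at h1 h2
  rw [← h1, ← h2, hST]

theorem sg_none : sg (fun _ => none : Hat n N) = fun _ => none := by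
  funext j
  rw [← ext_lt (sg (fun _ => none : Hat n N)) j, ext_sg]
  rfl

theorem sg_ne [NeZero N] {S : Hat n N} (h : S ≠ fun _ => none) : sg S ≠ fun _ => none := by
  intro h2
  apply h
  apply sg_inj
  rw [h2, sg_none]

/-- The generator on the nonempty indices. -/
noncomputable def sigma (n N : ℕ) [NeZero N] : Equiv.Perm (FF n N) :=
  Equiv.ofBijective (fun S => ⟨sg S.1, sg_ne S.2⟩) (by
    haveI : Finite (Hat n N) := by
      haveI := ZMod.fintype N
      infer_instance
    haveI : Finite (FF n N) := Subtype.finite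
    refine Finite.injective_iff_bijective.1 fun S T h => ?_
    exact Subtype.ext (sg_inj (congrArg Subtype.val h)))

theorem sigma_val [NeZero N] (S : FF n N) : (sigma n N S).1 = sg S.1 := rfl

theorem iter_val [NeZero N] (S : FF n N) (r : ℕ) : ((sigma n N)^[r] S).1 = sg^[r] S.1 := by
  have h : Function.Semiconj (Subtype.val : FF n N → Hat n N) (sigma n N) sg := fun S => rfl
  exact h.iterate_right r S

theorem minPer (hp : (n + 1).Prime) (m : ℕ) (hN : N = (n + 1) ^ (m + 1)) [NeZero N]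
    (S : FF n N) : Function.minimalPeriod (sigma n N) S = (n + 1) ^ (m + 2) := by
  have e1 : (n + 1) ^ (m + 2) = (n + 1) * N := by rw [hN, pow_succ']
  have e2 : (n + 1) ^ (m + 1) = (n + 1) * (n + 1) ^ m := pow_succ' _ _
  have h1 : Function.IsPeriodicPt (sigma n N) ((n + 1) ^ (m + 2)) S := by
    apply Subtype.ext
    rw [iter_val, e1, iter_full]
  have h2 : ¬ Function.IsPeriodicPt (sigma n N) ((n + 1) ^ (m + 1)) S := by
    intro h
    have h3 := congrArg Subtype.val h
    rw [iter_val, e2, iter_mul] at h3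
    apply S.2
    funext j
    have h4 := congrFun h3 j
    rcases hS : S.1 j with _ | a
    · rfl
    · exfalso
      rw [hS] at h4
      have h5 : a + (((n + 1) ^ m : ℕ) : ZMod N) = a := Option.some.inj h4
      rw [add_eq_left, ZMod.natCast_eq_zero_iff, hN] at h5
      have h8 := (Nat.pow_dvd_pow_iff_le_right hp.one_lt).1 h5
      omega
  obtain ⟨k, hk, hk2⟩ := (Nat.dvd_prime_pow hp).1 h1.minimalPeriod_dvd
  rcases Nat.lt_or_ge k (m + 2) with h3 | h3
  · exfalso
    apply h2
    rw [Function.isPeriodicPt_iff_minimalPeriod_dvd, hk2]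
    exact pow_dvd_pow _ (by omega)
  · rw [hk2, le_antisymm hk h3]

/-- A permutation whose orbits have `N'` elements. -/
theorem exists_phi {X : Type*} (σ : Equiv.Perm X) (N' : ℕ)
    (h : ∀ S, Function.minimalPeriod σ S = N') :
    ∃ φ : X → ZMod N', ∀ S, φ (σ S) = φ S + 1 := by
  have hdvd : ∀ (S : X) (k : ℤ), (σ ^ k) S = S → (N' : ℤ) ∣ k := by
    intro S k hk
    have h1 := (MulAction.zpow_smul_eq_iff_minimalPeriod_dvd (a := σ) (b := S) (n := k)).1 hk
    have h2 : Function.minimalPeriod (fun x => σ • x) S = N' := h S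
    rw [h2] at h1
    exact h1
  classical
  let rep : X → X := fun S => (Quotient.mk (Equiv.Perm.SameCycle.setoid σ) S).out
  have hrep : ∀ S, ∃ i : ℤ, (σ ^ i) (rep S) = S := fun S =>
    Quotient.exact (s := Equiv.Perm.SameCycle.setoid σ) (Quotient.out_eq _)
  choose i hi using hrep
  refine ⟨fun S => ((i S : ℤ) : ZMod N'), fun S => ?_⟩
  have hr : rep (σ S) = rep S := by
    have h1 : Quotient.mk (Equiv.Perm.SameCycle.setoid σ) (σ S) =
        Quotient.mk (Equiv.Perm.SameCycle.setoid σ) S := by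
      apply Quotient.sound
      exact (Equiv.Perm.SameCycle.refl σ S).apply_left
    show (Quotient.mk (Equiv.Perm.SameCycle.setoid σ) (σ S)).out = _
    rw [h1]
  have h1 := hi (σ S)
  rw [hr] at h1
  have h2 : (σ ^ (1 + i S)) (rep S) = σ S := by
    rw [zpow_add, zpow_one, Equiv.Perm.mul_apply, hi]
  have h3 : (σ ^ (-(1 + i S) + i (σ S))) (rep S) = rep S := by
    rw [zpow_add, Equiv.Perm.mul_apply, h1, ← h2, ← Equiv.Perm.mul_apply,
      ← zpow_add, neg_add_cancel, zpow_zero, Equiv.Perm.one_apply]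
  have h4 := hdvd _ _ h3
  have h5 : ((-(1 + i S) + i (σ S) : ℤ) : ZMod N') = 0 :=
    (ZMod.intCast_zmod_eq_zero_iff_dvd _ _).2 h4
  push_cast at h5
  rw [neg_add_eq_zero] at h5
  show ((i (σ S) : ℤ) : ZMod N') = (i S : ZMod N') + 1
  rw [← h5, add_comm]

end PHIx

open PHIx in
/-- PHI. -/
theorem PHI_thm : s_PHI := by
  intro p m n hp hn
  subst hn
  have h0 : NeZero ((n + 1) ^ (m + 1)) := ⟨pow_ne_zero _ (Nat.succ_ne_zero n)⟩
  obtain ⟨φ, hφ⟩ := exists_phi (sigma n ((n + 1) ^ (m + 1))) ((n + 1) ^ (m + 2))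
    fun S => minPer hp m rfl S
  exact ⟨sigma n ((n + 1) ^ (m + 1)), φ, fun S => rfl, hφ⟩

end Pool.Agent.WhC
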