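import Pool.Agent.WhC.Defs

/-!
# Coherence of the integral logarithms, module PLC: the places of the cyclic tensor power
-/

set_option autoImplicit false

namespace Pool.Agent.WhC

open Finset Pool.Agent.WhK

universe u

namespace PLC

/-! ### external products of families -/

section Fam

variable {𝔐 : Type*}

open Classical in
theorem extFam_mem {I : Type*} [Fintype I] (U : I → MonoidAlgebra ℤ 𝔐) (g : I → 𝔐)
    (hg : ∏ i, (U i).coeff (g i) ≠ 0) : g ∈ Fintype.piFinset fun i => (U i).coeff.support := by
  rw [Fintype.mem_piFinset]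
  intro i
  rw [Finsupp.mem_support_iff]
  intro h0
  exact hg (Finset.prod_eq_zero (Finset.mem_univ i) h0)

open Classical in
/-- external product of a family of elements of a monoid ring -/
noncomputable def extFam {I : Type*} [Fintype I] (U : I → MonoidAlgebra ℤ 𝔐) :
    MonoidAlgebra ℤ (I → 𝔐) :=
  .ofCoeff (Finsupp.onFinset (Fintype.piFinset fun i => (U i).coeff.support)
      (fun g => ∏ i, (U i).coeff (g i)) (extFam_mem U))

theorem coeff_extFam {I : Type*} [Fintype I] (U : I → MonoidAlgebra ℤ 𝔐) (g : I → 𝔐) :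
    (extFam U).coeff g = ∏ i, (U i).coeff (g i) := rfl

theorem extFam_const {I : Type*} [Fintype I] (u : MonoidAlgebra ℤ 𝔐) :
    extFam (fun _ : I => u) = extPow I u := by
  ext g
  rw [coeff_extFam, coeff_extPow]

theorem extFam_mul {I : Type*} [Fintype I] [Monoid 𝔐] (U V : I → MonoidAlgebra ℤ 𝔐) :
    extFam (fun i => U i * V i) = extFam U * extFam V := by
  classical
  ext g
  have hs : ∀ (X : I → MonoidAlgebra ℤ 𝔐) (F : (I → 𝔐) → ℤ → ℤ), (∀ a, F a 0 = 0) →
      (extFam X).coeff.sum F =
        ∑ a ∈ Fintype.piFinset fun i : I => (X i).coeff.support, F a (∏ i, (X i).coeff (a i)) := by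
    intro X F hF
    exact Finsupp.onFinset_sum (extFam_mem X) hF
  rw [MonoidAlgebra.coeff_mul, coeff_extFam, hs U _ (fun a => by
    simp only [zero_mul, ite_self]
    exact Finset.sum_const_zero)]
  have h1 : ∀ i, (U i * V i).coeff (g i) = ∑ a ∈ (U i).coeff.support, ∑ b ∈ (V i).coeff.support,
      if a * b = g i then (U i).coeff a * (V i).coeff b else 0 := fun i => by
    rw [MonoidAlgebra.coeff_mul]; rfl
  rw [Finset.prod_congr rfl fun i _ => h1 i, Finset.prod_univ_sum]
  refine Finset.sum_congr rfl fun a _ => ?_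
  rw [hs V _ (fun b => by simp), Finset.prod_univ_sum]
  refine Finset.sum_congr rfl fun b _ => ?_
  rw [Finset.prod_ite_zero, ← Finset.prod_mul_distrib]
  congr 1
  rw [eq_iff_iff, funext_iff]
  simp

end Fam

/-! ### the embeddings -/

section Emb

variable {𝔐 : Type*} [Monoid 𝔐]

/-- the place `j` -/
def emb (p N N' j : ℕ) : (ZMod N → 𝔐) →* (ZMod N' → 𝔐) where
  toFun g i := if i.val % p = j then g ((i.val / p : ℕ) : ZMod N) else 1
  map_one' := by
    funext i
    simp only [Pi.one_apply, ite_self]
  map_mul' g h := by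
    funext i
    simp only [Pi.mul_apply]
    split_ifs
    · rfl
    · rw [mul_one]

theorem emb_apply (p N N' j : ℕ) (g : ZMod N → 𝔐) (i : ZMod N') :
    emb p N N' j g i = if i.val % p = j then g ((i.val / p : ℕ) : ZMod N) else 1 := rfl

/-- products over one residue class -/
theorem list_block (c : 𝔐) (j : ℕ) (p : ℕ) :
    ((List.range p).map fun r => if r = j then c else 1).prod = if j < p then c else 1 := by
  induction p with
  | zero => simp
  | succ p ih =>
    rw [List.prod_range_succ, ih]
    by_cases h1 : j < p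
    · rw [if_pos h1, if_neg (by omega), mul_one, if_pos (by omega)]
    · rw [if_neg h1, one_mul]
      by_cases h2 : p = j
      · rw [if_pos h2, if_pos (by omega)]
      · rw [if_neg h2, if_neg (by omega)]

theorem list_class (G : ℕ → 𝔐) (p j : ℕ) (hj : j < p) (N : ℕ) :
    ((List.range (p * N)).map fun t => if t % p = j then G (t / p) else 1).prod =
      ((List.range N).map G).prod := by
  induction N with
  | zero => simp
  | succ N ih =>
    rw [mul_add, mul_one, List.range_add, List.map_append, List.prod_append, ih,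
      List.prod_range_succ, List.map_map]
    congr 1
    have h1 : ((List.range p).map ((fun t => if t % p = j then G (t / p) else 1) ∘
        fun x => p * N + x)) = (List.range p).map fun r => if r = j then G N else 1 := by
      refine List.map_congr_left fun r hr => ?_
      have hr' : r < p := List.mem_range.1 hr
      have e1 : (p * N + r) % p = r := by rw [Nat.mul_add_mod, Nat.mod_eq_of_lt hr']
      have e2 : (p * N + r) / p = N := by
        rw [Nat.mul_add_div (by omega), Nat.div_eq_of_lt hr', add_zero]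
      show (if (p * N + r) % p = j then G ((p * N + r) / p) else 1) = _
      rw [e1, e2]
    rw [h1, list_block, if_pos hj]

theorem finset_class {R : Type*} [CommMonoid R] (G : ℕ → R) (p j : ℕ) (hj : j < p) (N : ℕ) :
    (∏ t ∈ Finset.range (p * N), if t % p = j then G (t / p) else 1) =
      ∏ t ∈ Finset.range N, G t := by
  induction N with
  | zero => simp
  | succ N ih =>
    rw [mul_add, mul_one, Finset.prod_range_add, ih, Finset.prod_range_succ]
    congr 1
    have h1 : ∀ r ∈ Finset.range p, (if (p * N + r) % p = j then G ((p * N + r) / p) else 1) =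
        if r = j then G N else 1 := by
      intro r hr
      have hr' : r < p := Finset.mem_range.1 hr
      have e1 : (p * N + r) % p = r := by rw [Nat.mul_add_mod, Nat.mod_eq_of_lt hr']
      have e2 : (p * N + r) / p = N := by
        rw [Nat.mul_add_div (by omega), Nat.div_eq_of_lt hr', add_zero]
      rw [e1, e2]
    rw [Finset.prod_congr rfl h1, Finset.prod_ite_eq', if_pos (Finset.mem_range.2 hj)]

variable {p N N' : ℕ} [NeZero N] [NeZero N'] (hN : N' = p * N)

include hN in
omit [NeZero N'] in
theorem val_place (j : ℕ) (hj : j < p) (a : ZMod N) :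
    ((j + p * a.val : ℕ) : ZMod N').val = j + p * a.val := by
  refine ZMod.val_cast_of_lt ?_
  have h1 : a.val < N := ZMod.val_lt a
  rw [hN]
  calc j + p * a.val < p + p * a.val := by omega
    _ = p * (a.val + 1) := by ring
    _ ≤ p * N := Nat.mul_le_mul_left p h1

include hN in
omit [NeZero N'] in
theorem emb_place (j : ℕ) (hj : j < p) (g : ZMod N → 𝔐) (a : ZMod N) :
    emb p N N' j g ((j + p * a.val : ℕ) : ZMod N') = g a := by
  rw [emb_apply, val_place hN j hj a]
  have e1 : (j + p * a.val) % p = j := by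
    rw [add_comm, Nat.mul_add_mod, Nat.mod_eq_of_lt hj]
  have e2 : (j + p * a.val) / p = a.val := by
    rw [add_comm, Nat.mul_add_div (by omega), Nat.div_eq_of_lt hj, add_zero]
  rw [e1, e2, if_pos rfl, ZMod.natCast_zmod_val]

include hN in
theorem emb_injective (j : ℕ) (hj : j < p) :
    Function.Injective (emb (𝔐 := 𝔐) p N N' j) := by
  intro g h e
  funext a
  rw [← emb_place hN j hj g a, ← emb_place hN j hj h a, e]

include hN in
/-- the place `j` of an external power -/
theorem mapDomain_emb_extPow (j : ℕ) (hj : j < p) (u : MonoidAlgebra ℤ 𝔐) :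
    MonoidAlgebra.mapDomain (emb p N N' j) (extPow (ZMod N) u) =
      extFam fun i : ZMod N' => if i.val % p = j then u else 1 := by
  classical
  ext g
  rw [coeff_extFam]
  by_cases hg : g ∈ Set.range (emb (𝔐 := 𝔐) p N N' j)
  · obtain ⟨x, rfl⟩ := hg
    rw [coeff_mapDomain_inj (emb_injective hN j hj), coeff_extPow]
    have h1 : ∀ i : ZMod N', (if i.val % p = j then u else (1 : MonoidAlgebra ℤ 𝔐)).coeff
        (emb p N N' j x i) =
        if i.val % p = j then u.coeff (x ((i.val / p : ℕ) : ZMod N)) else 1 := by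
      intro i
      rw [emb_apply]
      split_ifs with h
      · rfl
      · rw [MonoidAlgebra.one_def, MonoidAlgebra.coeff_single, Finsupp.single_eq_same]
    rw [Finset.prod_congr rfl fun i _ => h1 i, prod_zmod_eq_range, prod_zmod_eq_range]
    have h2 : ∀ k ∈ Finset.range N', (if (k : ZMod N').val % p = j then
        u.coeff (x (((k : ZMod N').val / p : ℕ) : ZMod N)) else 1) =
        if k % p = j then u.coeff (x ((k / p : ℕ) : ZMod N)) else 1 := by
      intro k hk
      rw [ZMod.val_cast_of_lt (Finset.mem_range.1 hk)]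
    rw [Finset.prod_congr rfl h2, hN]
    exact (finset_class (fun t => u.coeff (x (t : ZMod N))) p j hj N).symm
  · rw [coeff_mapDomain_notin _ hg]
    symm
    by_contra hne
    apply hg
    refine ⟨fun a => g ((j + p * a.val : ℕ) : ZMod N'), ?_⟩
    funext i
    rw [emb_apply]
    split_ifs with h
    · have h3 : j + p * ((i.val / p : ℕ) : ZMod N).val = i.val := by
        rw [ZMod.val_cast_of_lt]
        · rw [← h]
          exact Nat.mod_add_div _ _
        · refine Nat.div_lt_of_lt_mul ?_
          rw [← hN]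
          exact ZMod.val_lt i
      rw [h3, ZMod.natCast_zmod_val]
    · by_contra h4
      apply hne
      refine Finset.prod_eq_zero (Finset.mem_univ i) ?_
      rw [if_neg h, MonoidAlgebra.one_def, MonoidAlgebra.coeff_single,
        Finsupp.single_eq_of_ne (fun e => h4 e.symm)]

/-- products of the places -/
theorem prod_places (p N' : ℕ) [NeZero N'] (u : MonoidAlgebra ℤ 𝔐) (k : ℕ) :
    (List.ofFn fun j : Fin k => extFam fun i : ZMod N' =>
      if i.val % p = (j : ℕ) then u else 1).prod =
      extFam fun i : ZMod N' => if i.val % p < k then u else 1 := by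
  induction k with
  | zero =>
    rw [List.ofFn_zero, List.prod_nil]
    have h1 : (fun i : ZMod N' => if i.val % p < 0 then u else 1) = fun _ => 1 := by
      funext i
      rw [if_neg (Nat.not_lt_zero _)]
    rw [h1, extFam_const, extPow_one]
  | succ k ih =>
    rw [List.ofFn_succ', List.concat_eq_append, List.prod_append, List.prod_singleton]
    have h1 : (List.ofFn fun j : Fin k => extFam fun i : ZMod N' =>
        if i.val % p = ((j.castSucc : Fin (k + 1)) : ℕ) then u else 1).prod =
        extFam fun i : ZMod N' => if i.val % p < k then u else 1 := ih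
    rw [h1, ← extFam_mul]
    congr 1
    funext i
    rw [Fin.val_last]
    by_cases h2 : i.val % p < k
    · rw [if_pos h2, if_neg (by omega), mul_one, if_pos (by omega)]
    · rw [if_neg h2, one_mul]
      by_cases h3 : i.val % p = k
      · rw [if_pos h3, if_pos (by omega)]
      · rw [if_neg h3, if_neg (by omega)]

include hN in
theorem prod_extPow (hp : 0 < p) (u : MonoidAlgebra ℤ 𝔐) :
    (List.ofFn fun j : Fin p => MonoidAlgebra.mapDomainRingHom ℤ (emb p N N' (j : ℕ))
      (extPow (ZMod N) u)).prod = extPow (ZMod N') u := by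
  have h1 : (fun j : Fin p => MonoidAlgebra.mapDomainRingHom ℤ (emb p N N' (j : ℕ))
      (extPow (ZMod N) u)) = fun j : Fin p => extFam fun i : ZMod N' =>
      if i.val % p = (j : ℕ) then u else 1 := by
    funext j
    exact mapDomain_emb_extPow hN j j.2 u
  rw [h1, prod_places, ← extFam_const]
  congr 1
  funext i
  rw [if_pos (Nat.mod_lt _ hp)]

omit [NeZero N] [NeZero N'] in
theorem emb_mul_comm (i j : ℕ) (hij : i ≠ j) (g h : ZMod N → 𝔐) :
    emb p N N' i g * emb p N N' j h = emb p N N' j h * emb p N N' i g := by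
  funext k
  rw [Pi.mul_apply, Pi.mul_apply, emb_apply, emb_apply]
  by_cases h1 : k.val % p = i
  · rw [if_pos h1, if_neg (by omega), mul_one, one_mul]
  · rw [if_neg h1, one_mul, mul_one]

theorem pl_comm (i j : ℕ) (hij : i ≠ j) (x y : MonoidAlgebra ℤ (ZMod N → 𝔐)) :
    MonoidAlgebra.mapDomainRingHom ℤ (emb p N N' i) x *
      MonoidAlgebra.mapDomainRingHom ℤ (emb p N N' j) y =
    MonoidAlgebra.mapDomainRingHom ℤ (emb p N N' j) y *
      MonoidAlgebra.mapDomainRingHom ℤ (emb p N N' i) x := by
  induction x using MonoidAlgebra.induction_linear with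
  | zero => rw [map_zero, zero_mul, mul_zero]
  | add x x' hx hx' => rw [map_add, add_mul, mul_add, hx, hx']
  | single g r =>
    induction y using MonoidAlgebra.induction_linear with
    | zero => rw [map_zero, zero_mul, mul_zero]
    | add y y' hy hy' => rw [map_add, mul_add, add_mul, hy, hy']
    | single h s =>
      rw [MonoidAlgebra.mapDomainRingHom_apply, MonoidAlgebra.mapDomainRingHom_apply,
        MonoidAlgebra.mapDomain_single, MonoidAlgebra.mapDomain_single,
        MonoidAlgebra.single_mul_single, MonoidAlgebra.single_mul_single,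
        emb_mul_comm i j hij, mul_comm r s]

theorem val_succ (i : ZMod N') : (i.val + 1 < N' ∧ (i + 1).val = i.val + 1) ∨
    (i.val + 1 = N' ∧ (i + 1).val = 0) := by
  have h0 : i + 1 = ((i.val + 1 : ℕ) : ZMod N') := by
    rw [Nat.cast_add, ZMod.natCast_zmod_val, Nat.cast_one]
  have h1 : i.val < N' := ZMod.val_lt i
  rcases Nat.lt_or_ge (i.val + 1) N' with h | h
  · exact Or.inl ⟨h, by rw [h0, ZMod.val_cast_of_lt h]⟩
  · have h2 : i.val + 1 = N' := by omega
    refine Or.inr ⟨h2, ?_⟩
    rw [h0, h2, ZMod.natCast_self, ZMod.val_zero]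

include hN in
omit [NeZero N] in
theorem shift_succ (j : ℕ) (hj : j + 1 < p) (g : ZMod N → 𝔐) :
    shiftHom 1 (emb p N N' (j + 1) g) = emb p N N' j g := by
  funext i
  rw [shiftHom_apply, emb_apply, emb_apply]
  rcases val_succ i with ⟨-, h2⟩ | ⟨h1, h2⟩
  · rw [h2]
    by_cases h3 : i.val % p = j
    · have h4 : (i.val + 1) % p = j + 1 := by
        rw [Nat.add_mod, h3, Nat.mod_eq_of_lt (show 1 < p by omega), Nat.mod_eq_of_lt hj]
      have h5 : (i.val + 1) / p = i.val / p := by
        have h6 := Nat.div_add_mod i.val p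
        have h7 := Nat.div_add_mod (i.val + 1) p
        rw [h4] at h7
        rw [h3] at h6
        have h8 : p * ((i.val + 1) / p) = p * (i.val / p) := by omega
        exact Nat.eq_of_mul_eq_mul_left (by omega) h8
      rw [if_pos h3, if_pos h4, h5]
    · rw [if_neg h3, if_neg]
      intro h4
      apply h3
      have h6 : (i.val + 1) % p = (i.val % p + 1) % p := by
        rw [Nat.add_mod, Nat.mod_eq_of_lt (show 1 < p by omega)]
      rw [h6] at h4
      have h7 : i.val % p < p := Nat.mod_lt _ (by omega)
      rcases Nat.lt_or_ge (i.val % p + 1) p with h8 | h8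
      · rw [Nat.mod_eq_of_lt h8] at h4
        omega
      · have h9 : i.val % p + 1 = p := by omega
        rw [h9, Nat.mod_self] at h4
        omega
  · rw [h2, Nat.zero_mod, if_neg (by omega), if_neg]
    intro h3
    have h4 : (i.val + 1) % p = 0 := by
      rw [h1, hN]
      exact Nat.mul_mod_right p N
    rw [Nat.add_mod, h3, Nat.mod_eq_of_lt (show 1 < p by omega), Nat.mod_eq_of_lt hj] at h4
    omega

include hN in
theorem shift_zero (n : ℕ) (hp : n + 1 = p) (g : ZMod N → 𝔐) :
    shiftHom 1 (emb p N N' 0 g) = emb p N N' n (shiftHom 1 g) := by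
  funext i
  rw [shiftHom_apply, emb_apply, emb_apply, shiftHom_apply]
  have h6 : i.val = p * (i.val / p) + i.val % p := (Nat.div_add_mod i.val p).symm
  have h7 : i.val % p < p := Nat.mod_lt _ (by omega)
  by_cases h3 : i.val % p = n
  · have h8 : i.val + 1 = p * (i.val / p + 1) := by
      rw [mul_add, mul_one]
      omega
    rw [if_pos h3]
    rcases val_succ i with ⟨-, h2⟩ | ⟨h1, h2⟩
    · rw [h2, h8, Nat.mul_mod_right, if_pos rfl, Nat.mul_div_cancel_left _ (by omega),
        Nat.cast_add, Nat.cast_one]
    · rw [h2, Nat.zero_mod, if_pos rfl, Nat.zero_div, Nat.cast_zero]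
      congr 1
      have h9 : i.val / p + 1 = N := Nat.eq_of_mul_eq_mul_left (show 0 < p by omega)
        (h8.symm.trans (h1.trans hN))
      rw [← Nat.cast_one, ← Nat.cast_add, h9, ZMod.natCast_self]
  · rw [if_neg h3]
    rcases val_succ i with ⟨-, h2⟩ | ⟨h1, h2⟩
    · rw [h2, if_neg]
      intro h4
      have h5 : (i.val + 1) % p = (i.val % p + 1) % p := (Nat.mod_add_mod _ _ _).symm
      rw [h5, Nat.mod_eq_of_lt (by omega)] at h4
      omega
    · exfalso
      have h4 : (i.val + 1) % p = 0 := by
        rw [h1, hN]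
        exact Nat.mul_mod_right p N
      have h5 : (i.val + 1) % p = (i.val % p + 1) % p := (Nat.mod_add_mod _ _ _).symm
      rw [h5, Nat.mod_eq_of_lt (by omega)] at h4
      omega

include hN in
theorem prodSeq_emb (hp : 0 < p) (g : ZMod N → 𝔐) : prodSeq (emb p N N' 0 g) = prodSeq g := by
  unfold prodSeq
  have h1 : (List.range N').map (fun k : ℕ => emb p N N' 0 g (k : ZMod N')) =
      (List.range N').map fun t => if t % p = 0 then g ((t / p : ℕ) : ZMod N) else 1 := by
    refine List.map_congr_left fun k hk => ?_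
    rw [emb_apply, ZMod.val_cast_of_lt (List.mem_range.1 hk)]
  rw [h1, hN]
  exact list_class (fun t => g (t : ZMod N)) p 0 hp N

end Emb

/-- composition of maps of monoid rings -/
theorem comp_mdr {X Y Z : Type*} [Monoid X] [Monoid Y] [Monoid Z] (f : X →* Y) (g : Y →* Z)
    (x : MonoidAlgebra ℤ X) : MonoidAlgebra.mapDomainRingHom ℤ g
      (MonoidAlgebra.mapDomainRingHom ℤ f x) = MonoidAlgebra.mapDomainRingHom ℤ (g.comp f) x := by
  induction x using MonoidAlgebra.induction_linear with
  | zero => simp only [map_zero]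
  | add x x' hx hx' => rw [map_add, map_add, map_add, hx, hx']
  | single g r =>
    rw [MonoidAlgebra.mapDomainRingHom_apply, MonoidAlgebra.mapDomainRingHom_apply,
      MonoidAlgebra.mapDomainRingHom_apply, MonoidAlgebra.mapDomain_single,
      MonoidAlgebra.mapDomain_single, MonoidAlgebra.mapDomain_single]
    rfl

theorem T_place {𝔐 K : Type*} [Monoid 𝔐] (cl : 𝔐 → K) {p N N' : ℕ} [NeZero N] [NeZero N']
    (hN : N' = p * N) (hp : 0 < p) (h : N ∣ N') (x : MonoidAlgebra ℤ (ZMod N → 𝔐)) :
    red K h (Tmod cl (MonoidAlgebra.mapDomainRingHom ℤ (emb p N N' 0) x)) = Tmod cl x := by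
  induction x using MonoidAlgebra.induction_linear with
  | zero => simp only [map_zero]
  | add x x' hx hx' => rw [map_add, map_add, map_add, map_add, hx, hx']
  | single g r =>
    rw [MonoidAlgebra.mapDomainRingHom_apply, MonoidAlgebra.mapDomain_single, Tmod_apply,
      Tmod_apply, Tint_single, Tint_single, prodSeq_emb hN hp]
    unfold red
    rw [Finsupp.mapRange.addMonoidHom_apply, Finsupp.mapRange.addMonoidHom_apply,
      Finsupp.mapRange.addMonoidHom_apply, Finsupp.mapRange_single, Finsupp.mapRange_single,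
      Finsupp.mapRange_single]
    congr 1
    show ZMod.castHom h (ZMod N) ((r : ℤ) : ZMod N') = ((r : ℤ) : ZMod N)
    exact map_intCast _ _

/-- the places and the periodic extension -/
theorem emb_diag {𝔐 : Type*} [Monoid 𝔐] (p m j : ℕ) [Fact p.Prime] (y : ZMod (p ^ m) → 𝔐) :
    emb p (p ^ (m + 1)) (p ^ (m + 2)) j (diagHom p m y) =
      diagHom p (m + 1) (emb p (p ^ m) (p ^ (m + 1)) j y) := by
  have hp : 0 < p := Nat.Prime.pos Fact.out
  funext i
  rw [diagHom_apply, emb_apply, emb_apply]
  have h1 : ZMod.castHom (pdvd p (m + 1)) (ZMod (p ^ (m + 1))) i =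
      ((i.val : ℕ) : ZMod (p ^ (m + 1))) := by
    conv_lhs => rw [← ZMod.natCast_zmod_val i]
    exact map_natCast _ _
  rw [h1, ZMod.val_natCast]
  have h2 : i.val % p ^ (m + 1) % p = i.val % p :=
    Nat.mod_mod_of_dvd _ (Dvd.intro_left (p ^ m) (pow_succ p m).symm)
  rw [h2]
  by_cases h3 : i.val % p = j
  · rw [if_pos h3, if_pos h3, diagHom_apply]
    congr 1
    rw [map_natCast, pow_succ' p m, Nat.mod_mul_right_div_self]
    exact (ZMod.natCast_mod _ _).symm
  · rw [if_neg h3, if_neg h3]

end PLC

open PLC in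
theorem PLC_thm : s_PLC.{u} := by
  intro 𝔐 K _ cl hcl p m n _ hn
  have hp : 0 < p := by omega
  have hN : ∀ k, p ^ (k + 1) = p * p ^ k := fun k => pow_succ' p k
  refine ⟨{
    pl := fun j => MonoidAlgebra.mapDomainRingHom ℤ (emb p (p ^ (m + 1)) (p ^ (m + 2)) (j : ℕ))
    comm := fun i j hij x y => pl_comm i j (fun h => hij (Fin.ext h)) x y
    s_succ := fun j x => ?_
    s_zero := fun x => ?_
    T_zero := fun x => T_place cl (hN (m + 1)) hp (pdvd p (m + 1)) x }, fun u => ⟨?_, ?_⟩⟩
  · show rho 1 (MonoidAlgebra.mapDomainRingHom ℤ _ x) = _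
    unfold rho
    rw [comp_mdr]
    congr 2
    refine MonoidHom.ext fun g => ?_
    show shiftHom 1 (emb p _ _ _ g) = _
    rw [Fin.val_succ, shift_succ (hN (m + 1)) j (by have := j.2; omega)]
    rfl
  · show rho 1 (MonoidAlgebra.mapDomainRingHom ℤ _ x) =
      MonoidAlgebra.mapDomainRingHom ℤ _ (rho 1 x)
    unfold rho
    rw [comp_mdr, comp_mdr]
    congr 2
    refine MonoidHom.ext fun g => ?_
    show shiftHom 1 (emb p _ _ _ g) = emb p _ _ _ (shiftHom 1 g)
    rw [Fin.val_zero, Fin.val_last, shift_zero (hN (m + 1)) n hn]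
  · subst hn
    exact prod_extPow (hN (m + 1)) hp u
  · subst hn
    show (List.ofFn fun j : Fin (n + 1) => MonoidAlgebra.mapDomainRingHom ℤ
      (emb (n + 1) ((n + 1) ^ (m + 1)) ((n + 1) ^ (m + 2)) (j : ℕ)) (Wof (n + 1) m u)).prod = _
    have h1 : (fun j : Fin (n + 1) => MonoidAlgebra.mapDomainRingHom ℤ
        (emb (n + 1) ((n + 1) ^ (m + 1)) ((n + 1) ^ (m + 2)) (j : ℕ)) (Wof (n + 1) m u)) =
        fun j : Fin (n + 1) => MonoidAlgebra.mapDomainRingHom ℤ (diagHom (n + 1) (m + 1))
          (MonoidAlgebra.mapDomainRingHom ℤ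
          (emb (n + 1) ((n + 1) ^ m) ((n + 1) ^ (m + 1)) (j : ℕ))
          (extPow (ZMod ((n + 1) ^ m)) u)) := by
      funext j
      have e : Wof (n + 1) m u = MonoidAlgebra.mapDomainRingHom ℤ (diagHom (n + 1) m)
        (extPow (ZMod ((n + 1) ^ m)) u) := rfl
      rw [e, comp_mdr, comp_mdr]
      congr 2
      exact MonoidHom.ext fun y => emb_diag (n + 1) m j y
    rw [h1]
    have h2 := congrArg (MonoidAlgebra.mapDomainRingHom ℤ (diagHom (n + 1) (m + 1)))
      (prod_extPow (hN m) hp u)
    rw [map_list_prod, List.map_ofFn] at h2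
    exact h2

end Pool.Agent.WhC
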