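import Pool.Agent.WhC.Main

/-!
# Statement of the module EVA: the logarithmic derivative of the tensor power
-/

set_option autoImplicit false

namespace Pool.Agent.WhC

open Finset

universe u v w

/-- EVA: only the `p`-fold diagonal orbit contributes (`p = n + 1`).
Proof. `dlog D IF D1 D1i = ∑_{S, φ S = 0} ∑_{S'} (ι (σ S) - ι S') T (D1i S S' * D1 S' (σ S))`, `D1 = bff (tm P (Eo 1 Y))`;
`tm P X S S' * tm P Z S' S'' = tens (fun j => X (S j) (S' j) * Z (S' j) (S'' j))`.
(1) `S` not full (some `S j = none`, some `S j ≠ none`): there is `j : Fin n` such that exactly one of `S j.castSucc`,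
`S j.succ = (sg S) j.castSucc` is `none` (else all or none are `none`); the factor at `j.castSucc` is `0` for every `S'`
(`Eo` is block diagonal).
(2) `S = some ∘ a` full: the product is `0` unless `S' = some ∘ a'` is full (factor at a `j` with `S' j = none`), and then
`ι (σ S) - ι S' = ∑ j, ((σ a) j - a' j)`, `(σ a) j = a (j + 1)`, `(σ a) (last) = a 0 + 1` (`hι`). For fixed `j₀` sum over `a' j`, `j ≠ j₀`
(`tens_sum` with the function `c ↦ if c = a' j₀ then .. else 0` at the place `j₀`): the factor at `j ≠ j₀` becomes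
`(Yi * Y) (a j) ((σ a) j) = 1` or `0`. So only `S` with `S j = (sg S) j` for all `j ≠ j₀` remain; then
`tens = pl j₀ (Yi (a j₀) c * Y c ((σ a) j₀))` (`tens_single`, `T_pl`) and `(σ a) j₀ = a j₀ + 1`:
`∑_c ((a j₀ + 1) - c) T0 (Yi (a j₀) c * Y c (a j₀ + 1)) = t`, independent of `a j₀` (equivariance, `T_s`, reindex `c`), and
`t = dlog D0 I0 Y Yi` (`a j₀ = 0`).
(3) The pairs `(j₀, S)`: `S = st j₀ a = fun j => some (if j ≤ j₀ then a else a + 1)`, `a : ZMod N`, and `sg (st j.succ a) = st j.castSucc a`,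
`sg (st 0 a) = st (last) (a + 1)`. So `(j₀, a) ↦ φ (st j₀ a)`, `Fin (n + 1) × ZMod N → ZMod N'`, has an image which is
nonempty and closed under `+ 1`, so it is surjective, and bijective by cardinality (`hN'`): exactly one pair has `φ = 0`. -/
def s_EVA : Prop := ∀ (n N N' : ℕ) [NeZero N] [NeZero N'] (B0 : Type u) (B : Type v) (M : Type w)
  [Ring B0] [Ring B] [AddCommGroup M] [Module (ZMod N) M] (D0 : Tw B0 M) (D : Tw B M)
  (P : Places n D0 D) (IF : Idx (ZMod N) N' (FF n N)) (I0 : Idx (ZMod N) N (ZMod N)),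
  N' = (n + 1) * N →
  (∀ S, (IF.σ S).1 = sg S.1) →
  (∀ (a : Fin (n + 1) → ZMod N) (h : (fun j => some (a j)) ≠ fun _ => none),
    IF.ι ⟨fun j => some (a j), h⟩ = ∑ j, a j) →
  (∀ i, I0.σ i = i + 1) → (∀ i, I0.φ i = i) → (∀ i, I0.ι i = i) →
  ∀ Y Yi : Matrix (ZMod N) (ZMod N) B0, (∀ a b, Y (a + 1) (b + 1) = D0.s (Y a b)) →
    (∀ a b, Yi (a + 1) (b + 1) = D0.s (Yi a b)) → Y * Yi = 1 → Yi * Y = 1 →
    dlog D IF (bff (tm P (Eo 1 Y))) (bff (tm P (Eo 1 Yi))) = dlog D0 I0 Y Yi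

end Pool.Agent.WhC
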