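import Pool.Agent.WhC.Fold
import Pool.Agent.WhC.PHI
import Pool.Agent.WhC.PLC
import Pool.Agent.WhC.StE

/-!
# Coherence of the integral logarithms
-/

set_option autoImplicit false

namespace Pool.Agent.WhC

open Finset Pool.Agent.WhK

section Index

variable {n N : ℕ}

theorem full_sg (S : Hat n N) : (∀ j, sg S j ≠ none) ↔ ∀ j, S j ≠ none := by
  constructor
  · intro h j
    refine Fin.cases ?_ (fun j => ?_) j
    · have h1 := h (Fin.last n)
      unfold sg at h1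
      rw [Fin.snoc_last] at h1
      intro h0
      rw [h0] at h1
      exact h1 rfl
    · have h1 := h j.castSucc
      unfold sg at h1
      rw [Fin.snoc_castSucc] at h1
      exact h1
  · intro h j
    refine Fin.lastCases ?_ (fun j => ?_) j
    · unfold sg
      rw [Fin.snoc_last]
      intro h0
      exact h 0 (Option.map_eq_none_iff.1 h0)
    · unfold sg
      rw [Fin.snoc_castSucc]
      exact h _

theorem sum_sg (S : Hat n N) (h : ∀ j, S j ≠ none) :
    ∑ j, (sg S j).elim 0 id = ∑ j, (S j).elim 0 id + (1 : ZMod N) := by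
  rw [Fin.sum_univ_castSucc, Fin.sum_univ_succ (fun j => (S j).elim (0 : ZMod N) id)]
  unfold sg
  simp only [Fin.snoc_castSucc, Fin.snoc_last]
  obtain ⟨a, ha⟩ := Option.ne_none_iff_exists'.1 (h 0)
  rw [ha]
  show _ + (a + 1) = a + _ + 1
  ring

open Classical in
/-- the index set of the tensor power -/
noncomputable def IFn {N' : ℕ} (hd : N ∣ N') (σ : Equiv.Perm (FF n N)) (φ : FF n N → ZMod N')
    (hσ : ∀ S, (σ S).1 = sg S.1) (hφ : ∀ S, φ (σ S) = φ S + 1) : Idx (ZMod N) N' (FF n N) where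
  σ := σ
  φ := φ
  φ_σ := hφ
  ι S := if ∀ j, S.1 j ≠ none then ∑ j, (S.1 j).elim 0 id else ZMod.castHom hd (ZMod N) (φ S)
  ι_σ S := by
    by_cases h : ∀ j, S.1 j ≠ none
    · rw [if_pos h, if_pos (by rw [hσ]; exact (full_sg S.1).2 h), hσ, sum_sg _ h]
    · rw [if_neg h, if_neg (by rw [hσ]; exact fun h' => h ((full_sg S.1).1 h')), hφ, map_add,
        map_one]

theorem IFn_full {N' : ℕ} (hd : N ∣ N') (σ : Equiv.Perm (FF n N)) (φ : FF n N → ZMod N')
    (hσ : ∀ S, (σ S).1 = sg S.1) (hφ : ∀ S, φ (σ S) = φ S + 1) (a : Fin (n + 1) → ZMod N)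
    (h : (fun j => some (a j)) ≠ fun _ => none) :
    (IFn hd σ φ hσ hφ).ι ⟨fun j => some (a j), h⟩ = ∑ j, a j :=
  if_pos fun _ => Option.some_ne_none _

/-- the cyclic index set with reduced mark -/
noncomputable def IZn {N' : ℕ} (hd : N ∣ N') : Idx (ZMod N) N' (ZMod N') where
  σ := Equiv.addRight 1
  φ := id
  φ_σ _ := rfl
  ι := ZMod.castHom hd (ZMod N)
  ι_σ a := by
    show ZMod.castHom hd (ZMod N) (a + 1) = _
    rw [map_add, map_one]

/-- the cyclic index set -/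
def I0n (N : ℕ) : Idx (ZMod N) N (ZMod N) where
  σ := Equiv.addRight 1
  φ := id
  φ_σ _ := rfl
  ι := id
  ι_σ _ := rfl

end Index

section Gam

variable {N : ℕ} [NeZero N] {𝔐 K : Type*} [Monoid 𝔐] (cl : 𝔐 → K)
  (hcl : ∀ a b, cl (a * b) = cl (b * a))

theorem gam_norm {U Ui W Wi z : MonoidAlgebra ℤ (ZMod N → 𝔐)}
    (t : CycData.IsTrip (cycData N cl hcl) U Ui W Wi z) :
    (cycData N cl hcl).gam Ui Wi z = -(cycData N cl hcl).dl
      (Yvi (fun a => rho a (Ui * z)) (Wi * U)) (Yv fun a => rho a (Ui * z)) := by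
  have h1 : (cycData N cl hcl).gam Ui Wi z = (cycData N cl hcl).gam 1 (Wi * U) (Ui * z) := by
    unfold CycData.gam
    rw [one_mul]
    congr 1
    refine Finset.sum_congr rfl fun j _ => ?_
    congr 2
    rw [map_mul, t.Ui_inv]
    simp only [mul_assoc]
    rw [← mul_assoc U, t.h1, one_mul]
  have hw : ∀ i, rho i (Wi * U) = Wi * U := fun i => by
    rw [map_mul]
    exact congrArg₂ (· * ·) (t.Wi_inv i) (t.U_inv i)
  rw [h1, CycData.gam_eq_dl 1]
  have e1 : CycData.Yof (cycData N cl hcl) 1 (-(1 * (Ui * z) * (Wi * U))) =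
      Yvi (fun a => rho a (Ui * z)) (Wi * U) := by
    funext i j
    show (if i = j then 1 else 0) - rho i (-(1 * (Ui * z) * (Wi * U))) =
      (if i = j then 1 else 0) + rho i (Ui * z) * (Wi * U)
    rw [one_mul, map_neg, sub_neg_eq_add, map_mul, hw]
  rw [e1]
  rfl

theorem dl_eq (X Xi : Matrix (ZMod N) (ZMod N) (MonoidAlgebra ℤ (ZMod N → 𝔐))) :
    (cycData N cl hcl).dl Xi X = dlog (R := ZMod N) (tw N cl hcl) (I0n N) X Xi := by
  unfold dlog wt
  show _ = ∑ a : ZMod N, if a = 0 then ∑ b : ZMod N, (a + 1 - b) • Tmod cl (Xi a b * X b (a + 1))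
    else 0
  rw [Finset.sum_ite_eq' univ (0 : ZMod N), if_pos (Finset.mem_univ _)]
  simp only [zero_add]
  rfl

theorem dl_red {N' : ℕ} [NeZero N'] (hd : N ∣ N')
    (X Xi : Matrix (ZMod N') (ZMod N') (MonoidAlgebra ℤ (ZMod N' → 𝔐))) :
    red K hd ((cycData N' cl hcl).dl Xi X) =
      dlog (R := ZMod N) (twr hd cl hcl) (IZn hd) X Xi := by
  have hs : ∀ (c : ZMod N') (x : K →₀ ZMod N'), red K hd (c • x) =
      ZMod.castHom hd (ZMod N) c • red K hd x := by
    intro c x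
    ext k
    show ZMod.castHom hd (ZMod N) ((c • x) k) = ZMod.castHom hd (ZMod N) c *
      ZMod.castHom hd (ZMod N) (x k)
    rw [← map_mul]
    rfl
  unfold dlog wt CycData.dl
  rw [map_sum]
  show _ = ∑ a : ZMod N', if a = 0 then ∑ b : ZMod N', (ZMod.castHom hd (ZMod N) (a + 1) -
    ZMod.castHom hd (ZMod N) b) • red K hd (Tmod cl (Xi a b * X b (a + 1))) else 0
  rw [Finset.sum_ite_eq' univ (0 : ZMod N'), if_pos (Finset.mem_univ _)]
  refine Finset.sum_congr rfl fun b _ => ?_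
  rw [hs, map_sub, map_one, zero_add, map_one]
  rfl

end Gam

universe u

theorem coh_of (hE : s_EVA.{u, u, u}) (𝔐 K : Type u) [Monoid 𝔐] (cl : 𝔐 → K)
    (hcl : ∀ a b, cl (a * b) = cl (b * a)) (p m : ℕ) [Fact p.Prime] (hp : p ≠ 2)
    (w : (MonoidAlgebra ℤ 𝔐)ˣ) :
    red K (pdvd p (m + 1)) (gamVal cl hcl p (m + 1) w) = gamVal cl hcl p m w := by
  obtain ⟨n, hn⟩ : ∃ n, n + 1 = p := ⟨p - 1, Nat.succ_pred_prime Fact.out⟩
  obtain ⟨σ, φ, hσ, hφ⟩ := PHI_thm p m n Fact.out hn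
  obtain ⟨P, hP⟩ := PLC_thm 𝔐 K cl hcl p m n hn
  set u : MonoidAlgebra ℤ 𝔐 := w.val with hu
  set v : MonoidAlgebra ℤ 𝔐 := (w⁻¹ : (MonoidAlgebra ℤ 𝔐)ˣ).val with hv
  -- level `N`
  have t0 := isTrip_of cl hcl p m u v w.mul_inv w.inv_mul (zOf_spec p m u)
  set U := extPow (ZMod (p ^ (m + 1))) u with hU
  set Ui := extPow (ZMod (p ^ (m + 1))) v with hUi
  set W := Wof p m u with hW
  set Wi := Wof p m v with hWi
  set z := zOf p m u with hz
  set α : ZMod (p ^ (m + 1)) → MonoidAlgebra ℤ (ZMod (p ^ (m + 1)) → 𝔐) :=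
    fun a => rho a (Ui * z) with hα
  have hα1 : ∀ a, α (a + 1) = (tw (p ^ (m + 1)) cl hcl).s (α a) := by
    intro a
    show rho (a + 1) (Ui * z) = rho 1 (rho a (Ui * z))
    rw [← rho_add, add_comm a 1]
  have hw1 : (tw (p ^ (m + 1)) cl hcl).s (Ui * W) = Ui * W := by
    show rho 1 (Ui * W) = Ui * W
    rw [map_mul]
    exact congrArg₂ (· * ·) (t0.Ui_inv 1) (t0.W_inv 1)
  have hwi1 : (tw (p ^ (m + 1)) cl hcl).s (Wi * U) = Wi * U := by
    show rho 1 (Wi * U) = Wi * U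
    rw [map_mul]
    exact congrArg₂ (· * ·) (t0.Wi_inv 1) (t0.U_inv 1)
  have h12 : Ui * W * (Wi * U) = 1 := by
    rw [mul_assoc, ← mul_assoc W, t0.h3, one_mul, t0.h2]
  have h21 : Wi * U * (Ui * W) = 1 := by
    rw [mul_assoc, ← mul_assoc U, t0.h1, one_mul, t0.h4]
  have hnn : Ui * W + ∑ a, α a = 1 := by
    have : ∀ a, α a = Ui * rho a z := fun a => by
      show rho a (Ui * z) = _
      rw [map_mul]
      exact congrArg (· * _) (t0.Ui_inv a)
    rw [Finset.sum_congr rfl fun a _ => this a, ← Finset.mul_sum]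
    have h := t0.hz
    have h' : ∑ a, rho a z = U - W := h
    rw [h', mul_sub, t0.h2]
    abel
  -- index sets
  let IF := IFn (pdvd p (m + 1)) σ φ hσ hφ
  let IZ := IZn (pdvd p (m + 1))
  let I0 := I0n (p ^ (m + 1))
  have hfold := fold_main P IF hσ IZ (fun _ => rfl) hα1 hw1 hwi1 h12 h21 hnn
  have hYY := Yv_inv hnn h12 h21
  have hev := hE n (p ^ (m + 1)) (p ^ (m + 2)) _ _ _ _ _ P IF I0
    (by rw [hn, pow_succ' p (m + 1)]) hσ (IFn_full _ _ _ _ _) (fun _ => rfl) (fun _ => rfl)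
    (fun _ => rfl) (Yv α) (Yvi α (Wi * U)) (Yv_eqv hα1) (Yvi_eqv hα1 hwi1) hYY.1 hYY.2
  -- level `N'`
  set U' := extPow (ZMod (p ^ (m + 2))) u with hU'
  set Ui' := extPow (ZMod (p ^ (m + 2))) v with hUi'
  set W' := Wof p (m + 1) u with hW'
  set Wi' := Wof p (m + 1) v with hWi'
  have hPw : P.tens (fun _ => Ui * W) = Ui' * W' := by
    rw [← P.tens_mul, (hP v).1, (hP u).2]
  have hPwi : P.tens (fun _ => Wi * U) = Wi' * U' := by
    rw [← P.tens_mul, (hP v).2, (hP u).1]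
  set β := αv P φ α (Ui * W) with hβ
  have hβ1 : ∀ i, β (i + 1) = rho 1 (β i) := fun i => αv_s P IF hσ hα1 hw1 i
  have hβk : ∀ k : ℕ, β (k : ZMod (p ^ (m + 2))) = rho (k : ZMod (p ^ (m + 2))) (β 0) := by
    intro k
    induction k with
    | zero => rw [Nat.cast_zero, rho_zero]
    | succ k ih => rw [Nat.cast_succ, hβ1, ih, ← rho_add, add_comm (1 : ZMod (p ^ (m + 2)))]
  have hβi : ∀ i, β i = rho i (β 0) := by
    intro i
    have h := hβk i.val
    rwa [ZMod.natCast_zmod_val] at h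
  have hUU' : Ui' * U' = 1 := by rw [← extPow_mul, hu, hv, w.inv_mul, extPow_one]
  have hUU : U' * Ui' = 1 := by rw [← extPow_mul, hu, hv, w.mul_inv, extPow_one]
  have hsum : ∑ i, β i = 1 - Ui' * W' := by
    have h := norm_one P φ hnn
    rw [hPw] at h
    rw [← h]
    abel
  have hz' : ∑ i, rho i (U' * β 0) = U' - W' := by
    have : ∀ i, rho i (U' * β 0) = U' * β i := fun i => by
      rw [map_mul, hβi i]
      exact congrArg (· * _) (rho_extPow i u)
    rw [Finset.sum_congr rfl fun i _ => this i, ← Finset.mul_sum, hsum, mul_sub, mul_one,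
      ← mul_assoc, hUU, one_mul]
  have t1 := isTrip_of cl hcl p (m + 1) u v w.mul_inv w.inv_mul hz'
  rw [gamVal_eq hp w hz', gam_norm cl hcl t1]
  unfold gamVal
  rw [gam_norm cl hcl t0, map_neg, dl_red cl hcl (pdvd p (m + 1)), dl_eq]
  have e1 : Ui' * (U' * β 0) = β 0 := by rw [← mul_assoc, hUU', one_mul]
  have e2 : (fun a => rho a (β 0)) = β := funext fun i => (hβi i).symm
  congr 1
  rw [← hev, hfold, hPwi]
  show dlog _ _ (Yv fun a => rho a (Ui' * (U' * β 0))) (Yvi (fun a => rho a (Ui' * (U' * β 0)))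
    (Wi' * U')) = _
  rw [e1, e2]
  rfl

end Pool.Agent.WhC
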