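import Pool.Agent.WhC.Main

/-!
# The folding
-/

set_option autoImplicit false

namespace Pool.Agent.WhC

open Finset

section

variable {n N N' : ℕ} [NeZero N] [NeZero N'] {B0 B M : Type*} [Ring B0] [Ring B] [AddCommGroup M]
  {D0 : Tw B0 M} {D : Tw B M} (P : Places n D0 D)

theorem bl_Lo (α : ZMod N → B0) : bl (tm P (Lo α)) =
    Matrix.fromBlocks 1 0 (bfo (tm P (Lo α))) (bff (tm P (Lo α))) := by
  rw [bl_eq, one11 P (rfl : Lo α none none = 1), zero12 P fun b => rfl]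

theorem bl_Vo (r : B0) : bl (tm P (Vo N r)) =
    Matrix.fromBlocks 1 (bof (tm P (Vo N r))) 0 (bff (tm P (Vo N r))) := by
  rw [bl_eq, one11 P (rfl : Vo N r none none = 1), zero21 P fun b => rfl]

theorem bl_Eo (x : B0) (Z : Matrix (ZMod N) (ZMod N) B0) : bl (tm P (Eo x Z)) =
    Matrix.fromBlocks (boo (tm P (Eo x Z))) 0 0 (bff (tm P (Eo x Z))) := by
  rw [bl_eq, zero12 P fun b => rfl, zero21 P fun b => rfl]

theorem bl_Eo1 (Z : Matrix (ZMod N) (ZMod N) B0) : bl (tm P (Eo 1 Z)) =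
    Matrix.fromBlocks 1 0 0 (bff (tm P (Eo 1 Z))) := by
  rw [bl_Eo, one11 P (rfl : Eo 1 Z none none = 1)]

theorem bff_Lo_inv (α : ZMod N → B0) :
    bff (tm P (Lo α)) * bff (tm P (Lo fun a => -α a)) = 1 := by
  refine block_inv_lower (l := bfo (tm P (Lo α))) (l' := bfo (tm P (Lo fun a => -α a))) ?_
  rw [← bl_Lo, ← bl_Lo, ← bl_mul, tm_mul, Lo_inv, tm_one, bl_one]

theorem bff_Vo_inv (r : B0) :
    bff (tm P (Vo N r)) * bff (tm P (Vo N (-r))) = 1 := by
  refine block_inv_upper (v := bof (tm P (Vo N r))) (v' := bof (tm P (Vo N (-r)))) ?_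
  rw [← bl_Vo, ← bl_Vo, ← bl_mul, tm_mul, Vo_inv, tm_one, bl_one]

theorem bff_Eo_inv {x xi : B0} {Z Zi : Matrix (ZMod N) (ZMod N) B0} (hx : x * xi = 1)
    (hZ : Z * Zi = 1) : boo (tm P (Eo x Z)) * boo (tm P (Eo xi Zi)) = 1 ∧
      bff (tm P (Eo x Z)) * bff (tm P (Eo xi Zi)) = 1 := by
  refine block_inv_diag ?_
  rw [← bl_Eo, ← bl_Eo, ← bl_mul, tm_mul, Eo_inv hx hZ, tm_one, bl_one]

/-- the row -/
def vD (w : B0) : Matrix Unit (FF n N) B := fun _ S => bv P w S.1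

/-- the column -/
def lc (α : ZMod N → B0) : Matrix (FF n N) Unit B := fun S _ => lv P α S.1

theorem bof_eq (w : B0) : (bof (tm P (Vo N (1 : B0))) : Matrix Unit (FF n N) B) *
    (bff (tm P (Eo w 1)) : Matrix (FF n N) (FF n N) B) = vD P w := by
  have h : bl (tm P (Vo N 1 * Eo w 1)) = bl (tm P (Vo N 1)) * bl (tm P (Eo w 1)) := by
    rw [← bl_mul, tm_mul]
  rw [bl_Vo, bl_Eo, Matrix.fromBlocks_multiply, bl_eq, Matrix.fromBlocks_inj] at h
  have h2 := h.2.1
  rw [Matrix.mul_zero, zero_add] at h2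
  rw [← h2]
  funext i S
  show P.tens _ = P.tens _
  congr 1
  funext j
  have e : Vo N 1 * Eo w 1 = om w (fun _ => 1) (fun _ => 0) 1 := by
    unfold Vo Eo
    rw [om_mul]
    congr 1
    · simp
    · funext b
      simp [Matrix.one_apply]
    · funext b
      simp
    · ext a b
      simp
  rw [e]
  cases S.1 j <;> rfl

theorem bfo_eq (α : ZMod N → B0) : bfo (tm P (Lo α)) = lc P α := by
  funext S i
  show P.tens _ = P.tens _
  congr 1
  funext j
  cases S.1 j <;> rfl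

theorem boo_eq (w : B0) (Z : Matrix (ZMod N) (ZMod N) B0) :
    boo (tm P (Eo w Z)) = fun _ _ => P.tens fun _ => w := rfl

variable {α : ZMod N → B0} {w wi : B0}

/-- the two identities -/
theorem blocks (hn : w + ∑ a, α a = 1) :
    (boo (tm P (Eo w (1 : Matrix (ZMod N) (ZMod N) B0))) + vD P w * lc P α = 1) ∧
    bff (tm P (Lo α)) * bff (tm P (Eo 1 (Yv α))) * bff (tm P (Vo N (1 : B0))) =
      bff (tm P (Vo N (1 : B0))) * bff (tm P (Eo w 1)) *
        (1 - lc P α * vD P w) * bff (tm P (Lo α)) := by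
  have h : bl (tm P (Lo α)) * bl (tm P (Eo 1 (Yv α))) * bl (tm P (Vo N (1 : B0))) =
      bl (tm P (Vo N (1 : B0))) * bl (tm P (Eo w 1)) * bl (tm P (Lo α)) := by
    rw [← bl_mul, ← bl_mul, ← bl_mul, ← bl_mul, tm_mul, tm_mul, tm_mul, tm_mul, block0 hn]
  rw [bl_Lo, bl_Eo1, bl_Vo, bl_Eo] at h
  have h2 := block_alg h
  rw [bof_eq, bfo_eq] at h2
  exact h2

theorem norm_one (φ : FF n N → ZMod N') (hn : w + ∑ a, α a = 1) :
    (P.tens fun _ => w) + ∑ i, αv P φ α w i = 1 := by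
  have h := congrFun (congrFun (blocks P hn).1 ()) ()
  have h0 : (vD P w * lc P α : Matrix Unit Unit B) () () = ∑ S, vD P w () S * lc P α S () :=
    Matrix.mul_apply
  rw [Matrix.add_apply, h0, Matrix.one_apply_eq] at h
  rw [← h]
  show P.tens _ + _ = P.tens _ + _
  congr 1
  unfold αv
  rw [Finset.sum_comm]
  refine Finset.sum_congr rfl fun S _ => ?_
  rw [Finset.sum_ite_eq, if_pos (Finset.mem_univ _)]
  rfl

end

section

variable {n N N' : ℕ} [NeZero N] [NeZero N'] {B0 B M : Type*} [Ring B0] [Ring B] [AddCommGroup M]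
  [Module (ZMod N) M] {D0 : Tw B0 M} {D : Tw B M} (P : Places n D0 D)
  {α : ZMod N → B0} {w wi : B0}

omit [NeZero N] [Module (ZMod N) M] in
theorem sg_none : sg (fun _ => none : Hat n N) = fun _ => none := by
  funext j
  refine Fin.lastCases ?_ (fun j => ?_) j
  · unfold sg
    rw [Fin.snoc_last]
    rfl
  · unfold sg
    rw [Fin.snoc_castSucc]

omit [NeZero N] [Module (ZMod N) M] in
theorem bff_eqv {X : Matrix (Hat n N) (Hat n N) B} (hX : Eqv D sg sg X) {σ : FF n N → FF n N}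
    (hσ : ∀ S, (σ S).1 = sg S.1) : Eqv D σ σ (bff X) := by
  intro S S'
  show X (σ S).1 (σ S').1 = D.s (X S.1 S'.1)
  rw [hσ, hσ]
  exact hX _ _

omit [Module (ZMod N) M] in
theorem Lo_eqv (hα : ∀ a, α (a + 1) = D0.s (α a)) : Eqv D0 sh sh (Lo α) := by
  refine om_eqv D0 (map_one _) (fun _ => (map_zero _).symm) hα fun a b => ?_
  rw [Matrix.one_apply, Matrix.one_apply]
  simp only [add_left_inj]
  split_ifs <;> simp

omit [Module (ZMod N) M] in
theorem Vo_eqv (r : B0) (hr : D0.s r = r) : Eqv D0 sh sh (Vo N r) := by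
  refine om_eqv D0 (map_one _) (fun _ => hr.symm) (fun _ => (map_zero _).symm) fun a b => ?_
  rw [Matrix.one_apply, Matrix.one_apply]
  simp only [add_left_inj]
  split_ifs <;> simp

omit [Module (ZMod N) M] in
theorem Eo_eqv {x : B0} {Z : Matrix (ZMod N) (ZMod N) B0} (hx : D0.s x = x)
    (hZ : ∀ a b, Z (a + 1) (b + 1) = D0.s (Z a b)) : Eqv D0 sh sh (Eo x Z) :=
  om_eqv D0 hx (fun _ => (map_zero _).symm) (fun _ => (map_zero _).symm) hZ

omit [Module (ZMod N) M] in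
theorem Yv_eqv (hα : ∀ a, α (a + 1) = D0.s (α a)) (a b : ZMod N) :
    Yv α (a + 1) (b + 1) = D0.s (Yv α a b) := by
  unfold Yv
  rw [map_sub, ← hα]
  simp only [add_left_inj]
  split_ifs <;> simp

omit [Module (ZMod N) M] in
theorem Yvi_eqv (hα : ∀ a, α (a + 1) = D0.s (α a)) (hwi : D0.s wi = wi) (a b : ZMod N) :
    Yvi α wi (a + 1) (b + 1) = D0.s (Yvi α wi a b) := by
  unfold Yvi
  rw [map_add, map_mul, ← hα, hwi]
  simp only [add_left_inj]
  split_ifs <;> simp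

omit [Module (ZMod N) M] in
theorem lv_s (hα : ∀ a, α (a + 1) = D0.s (α a)) (S : Hat n N) :
    lv P α (sg S) = D.s (lv P α S) := by
  have h := tm_eqv P (Lo α) (Lo_eqv hα) S (fun _ => none)
  rw [sg_none] at h
  have e : ∀ S : Hat n N, tm P (Lo α) S (fun _ => none) = lv P α S := by
    intro S
    show P.tens _ = P.tens _
    congr 1
    funext j
    cases S j <;> rfl
  rw [e, e] at h
  exact h

omit [Module (ZMod N) M] in
theorem bv_s (hw : D0.s w = w) (S : Hat n N) : bv P w (sg S) = D.s (bv P w S) := by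
  have hE : Eqv D0 sh sh (om w (fun _ => 1) (fun _ => 0) (1 : Matrix (ZMod N) (ZMod N) B0)) := by
    refine om_eqv D0 hw (fun _ => (map_one _).symm) (fun _ => (map_zero _).symm) fun a b => ?_
    rw [Matrix.one_apply, Matrix.one_apply]
    simp only [add_left_inj]
    split_ifs <;> simp
  have h := tm_eqv P _ hE (fun _ => none) S
  rw [sg_none] at h
  have e : ∀ S : Hat n N, tm P (om w (fun _ => 1) (fun _ => 0) 1) (fun _ => none) S = bv P w S := by
    intro S
    show P.tens _ = P.tens _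
    congr 1
    funext j
    cases S j <;> rfl
  rw [e, e] at h
  exact h

theorem αv_s (IF : Idx (ZMod N) N' (FF n N)) (hσ : ∀ S, (IF.σ S).1 = sg S.1)
    (hα : ∀ a, α (a + 1) = D0.s (α a)) (hw : D0.s w = w) (i : ZMod N') :
    αv P IF.φ α w (i + 1) = D.s (αv P IF.φ α w i) := by
  unfold αv
  rw [map_sum, ← Equiv.sum_comp IF.σ]
  refine Finset.sum_congr rfl fun S _ => ?_
  rw [IF.φ_σ, hσ, bv_s P hw, lv_s P hα]
  simp only [add_left_inj]
  split_ifs
  · rw [map_mul]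
  · rw [map_zero]

/-- the folding -/
theorem fold_main (IF : Idx (ZMod N) N' (FF n N)) (hσ : ∀ S, (IF.σ S).1 = sg S.1)
    (IZ : Idx (ZMod N) N' (ZMod N')) (hZ : ∀ i, IZ.σ i = i + 1)
    (hα : ∀ a, α (a + 1) = D0.s (α a)) (hw : D0.s w = w) (hwi : D0.s wi = wi)
    (h1 : w * wi = 1) (h2 : wi * w = 1) (hn : w + ∑ a, α a = 1) :
    dlog D IF (bff (tm P (Eo 1 (Yv α)))) (bff (tm P (Eo 1 (Yvi α wi)))) =
      dlog D IZ (Yv (αv P IF.φ α w)) (Yvi (αv P IF.φ α w) (P.tens fun _ => wi)) := by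
  -- names
  set L := bff (tm P (Lo α)) with hL
  set Li := bff (tm P (Lo fun a => -α a)) with hLi
  set V := bff (tm P (Vo N (1 : B0))) with hV
  set Vi := bff (tm P (Vo N (-(1 : B0)))) with hVi
  set D1 := bff (tm P (Eo 1 (Yv α))) with hD1
  set D1i := bff (tm P (Eo 1 (Yvi α wi))) with hD1i
  set D2 := bff (tm P (Eo w (1 : Matrix (ZMod N) (ZMod N) B0))) with hD2
  set D2i := bff (tm P (Eo wi (1 : Matrix (ZMod N) (ZMod N) B0))) with hD2i
  set α' := αv P IF.φ α w with hα'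
  set wi' := P.tens fun _ => wi with hwi'
  have hYY := Yv_inv hn h1 h2
  have LLi : L * Li = 1 := bff_Lo_inv P α
  have LiL : Li * L = 1 := by
    have := bff_Lo_inv P (fun a => -α a)
    simp only [neg_neg] at this
    exact this
  have VVi : V * Vi = 1 := bff_Vo_inv P 1
  have ViV : Vi * V = 1 := by
    have := bff_Vo_inv P (N := N) (-(1 : B0))
    rw [neg_neg] at this
    exact this
  have D11 : D1 * D1i = 1 := (bff_Eo_inv P (mul_one 1) hYY.1).2
  have D11' : D1i * D1 = 1 := (bff_Eo_inv P (mul_one 1) hYY.2).2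
  have D22 : D2 * D2i = 1 := (bff_Eo_inv P (Z := 1) (Zi := 1) h1 (mul_one 1)).2
  have D22' : D2i * D2 = 1 := (bff_Eo_inv P (Z := 1) (Zi := 1) h2 (mul_one 1)).2
  -- equivariance
  have eL : Eqv D IF.σ IF.σ L := bff_eqv (tm_eqv P _ (Lo_eqv hα)) hσ
  have eLi : Eqv D IF.σ IF.σ Li := bff_eqv (tm_eqv P _ (Lo_eqv fun a => by rw [hα, map_neg])) hσ
  have eV : Eqv D IF.σ IF.σ V := bff_eqv (tm_eqv P _ (Vo_eqv 1 (map_one _))) hσ
  have eVi : Eqv D IF.σ IF.σ Vi :=
    bff_eqv (tm_eqv P _ (Vo_eqv _ (by rw [map_neg, map_one]))) hσ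
  have h11 : ∀ a b : ZMod N, (1 : Matrix (ZMod N) (ZMod N) B0) (a + 1) (b + 1) =
      D0.s ((1 : Matrix (ZMod N) (ZMod N) B0) a b) := by
    intro a b
    rw [Matrix.one_apply, Matrix.one_apply]
    simp only [add_left_inj]
    split_ifs <;> simp
  have eD1 : Eqv D IF.σ IF.σ D1 :=
    bff_eqv (tm_eqv P _ (Eo_eqv (map_one _) (Yv_eqv hα))) hσ
  have eD1i : Eqv D IF.σ IF.σ D1i :=
    bff_eqv (tm_eqv P _ (Eo_eqv (map_one _) (Yvi_eqv hα hwi))) hσ
  have eD2 : Eqv D IF.σ IF.σ D2 := bff_eqv (tm_eqv P _ (Eo_eqv hw h11)) hσ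
  have eD2i : Eqv D IF.σ IF.σ D2i := bff_eqv (tm_eqv P _ (Eo_eqv hwi h11)) hσ
  -- the folding matrices
  let X : Matrix (FF n N) (ZMod N') B := fun S _ => lv P α S.1
  let Ψ : Matrix (ZMod N') (FF n N) B := fun i S => if IF.φ S = i then bv P w S.1 else 0
  have eX : Eqv D IF.σ IZ.σ X := by
    intro S i
    show lv P α (IF.σ S).1 = D.s (lv P α S.1)
    rw [hσ, lv_s P hα]
  have eΨ : Eqv D IZ.σ IF.σ Ψ := by
    intro i S
    show (if IF.φ (IF.σ S) = IZ.σ i then bv P w (IF.σ S).1 else 0) =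
      D.s (if IF.φ S = i then bv P w S.1 else 0)
    rw [hZ, IF.φ_σ, hσ, bv_s P hw]
    simp only [add_left_inj]
    split_ifs
    · rfl
    · rw [map_zero]
  have hXΨ : X * Ψ = lc P α * vD P w := by
    ext S S'
    have e1 : (lc P α * vD P w) S S' = lv P α S.1 * bv P w S'.1 := by
      rw [Matrix.mul_apply]
      exact Fintype.sum_unique _
    rw [e1, Matrix.mul_apply]
    show ∑ i, lv P α S.1 * (if IF.φ S' = i then bv P w S'.1 else 0) = _
    simp only [mul_ite, mul_zero]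
    rw [Finset.sum_ite_eq, if_pos (Finset.mem_univ _)]
  have hΨX : 1 - Ψ * X = Yv α' := by
    ext i j
    rw [Matrix.sub_apply, Matrix.one_apply, Matrix.mul_apply]
    unfold Yv
    congr 1
    refine Finset.sum_congr rfl fun S _ => ?_
    show (if IF.φ S = i then bv P w S.1 else 0) * lv P α S.1 = _
    rw [ite_mul, zero_mul]
  have hn' : (P.tens fun _ => w) + ∑ i, α' i = 1 := norm_one P IF.φ hn
  have h1' : (P.tens fun _ => w) * wi' = 1 := by
    rw [hwi', P.tens_mul]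
    simp only [h1]
    exact P.tens_one
  have h2' : wi' * (P.tens fun _ => w) = 1 := by
    rw [hwi', P.tens_mul]
    simp only [h2]
    exact P.tens_one
  have hZZ := Yv_inv hn' h1' h2'
  have hα1 : ∀ i, α' (i + 1) = D.s (α' i) := αv_s P IF hσ hα hw
  have hwi1 : D.s wi' = wi' := by
    rw [hwi', P.s_tens]
    congr 1
    funext j
    refine Fin.lastCases ?_ (fun j => ?_) j
    · rw [Fin.snoc_last, hwi]
    · rw [Fin.snoc_castSucc]
  have eZi : Eqv D IZ.σ IZ.σ (Yvi α' wi') := by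
    intro i j
    rw [hZ, hZ]
    unfold Yvi
    rw [map_add, map_mul, ← hα1, hwi1]
    simp only [add_left_inj]
    split_ifs <;> simp
  have hz1 : Yvi α' wi' * (1 - Ψ * X) = 1 := by rw [hΨX]; exact hZZ.2
  have hz2 : (1 - Ψ * X) * Yvi α' wi' = 1 := by rw [hΨX]; exact hZZ.1
  have hsw := dlog_swap (R := ZMod N) D IF IZ eX eΨ eZi hz1 hz2
  have hsi := swap_inv hz1 hz2
  have hblk := (blocks P hn).2
  rw [← hXΨ] at hblk
  set ZF := 1 - X * Ψ with hZF
  set ZFi := 1 + X * Yvi α' wi' * Ψ with hZFi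
  have eZF : Eqv D IF.σ IF.σ ZF := (eqv_one D IF.σ).sub (eX.mul eΨ)
  have eZFi : Eqv D IF.σ IF.σ ZFi := (eqv_one D IF.σ).add ((eX.mul eZi).mul eΨ)
  -- additivity
  have a1 := dlog_mul D IF (eL.mul eD1) (eD1i.mul eLi) eV eVi
    (by rw [mul_assoc, ← mul_assoc Li, LiL, one_mul, D11']) VVi
  have a2 := dlog_mul D IF eL eLi eD1 eD1i LiL D11
  have b1 := dlog_mul D IF eV eVi eD2 eD2i ViV D22
  have b2 := dlog_mul D IF (eV.mul eD2) (eD2i.mul eVi) eZF eZFi
    (by rw [mul_assoc, ← mul_assoc Vi, ViV, one_mul, D22']) hsi.2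
  have b3 := dlog_mul D IF ((eV.mul eD2).mul eZF) (eZFi.mul (eD2i.mul eVi)) eL eLi
    (by rw [mul_assoc ZFi, mul_assoc V, ← mul_assoc (D2i * Vi), mul_assoc D2i, ViV, mul_one,
          ← mul_assoc D2i, D22', one_mul, hsi.1]) LLi
  have hd2 : dlog D IF D2 D2i = 0 := by
    refine wt_diag D IF _ _ fun S S' hne => ?_
    have hne' : S.1 ≠ S'.1 := fun h => hne (Subtype.ext h)
    obtain ⟨j, hj⟩ := Function.ne_iff.1 hne'
    refine P.tens_zero _ j ?_
    show Eo w 1 (S.1 j) (S'.1 j) = 0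
    revert hj
    cases S.1 j <;> cases S'.1 j <;> intro hj
    · exact absurd rfl hj
    · rfl
    · rfl
    · exact Matrix.one_apply_ne fun h => hj (congrArg some h)
  have hinv : Vi * (D1i * Li) = Li * (ZFi * (D2i * Vi)) := by
    refine inv_unique (X := L * D1 * V) ?_ ?_
    · rw [mul_assoc L, mul_assoc Vi, mul_assoc D1i, ← mul_assoc Li, LiL, one_mul, ← mul_assoc D1i,
        D11', one_mul, ViV]
    · rw [hblk, mul_assoc (V * D2 * ZF), ← mul_assoc L, LLi, one_mul, mul_assoc (V * D2),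
        ← mul_assoc ZF, hsi.2, one_mul, mul_assoc V, ← mul_assoc D2, D22, one_mul, VVi]
  rw [hinv, hblk, b3, b2, b1, hd2, a2, hsw, hΨX] at a1
  -- a1 : V + 0 + Z + L = L + D1 + V
  have : dlog D IF D1 D1i = dlog D IZ (Yv α') (Yvi α' wi') := by
    have h := a1
    generalize dlog D IF V Vi = x1 at h
    generalize dlog D IF L Li = x2 at h
    generalize dlog D IF D1 D1i = x3 at h ⊢
    generalize dlog D IZ (Yv α') (Yvi α' wi') = x4 at h ⊢
    have e : x1 + 0 + x4 + x2 - (x2 + x3 + x1) = 0 := sub_eq_zero.2 h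
    have e2 : x1 + 0 + x4 + x2 - (x2 + x3 + x1) = x4 - x3 := by abel
    rw [e2] at e
    exact (sub_eq_zero.1 e).symm
  exact this

end

end Pool.Agent.WhC
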