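import Pool.Agent.WhC.Blk

/-!
# The identity `L D₁ V = V D₂ (1 - ℓ v D₂) L` and the folding
-/

set_option autoImplicit false

namespace Pool.Agent.WhC

open Finset

section Blocks

variable {n N : ℕ} [NeZero N] {B : Type*} [Ring B]

/-- the empty index and the others -/
def splF (n N : ℕ) : Unit ⊕ FF n N → Hat n N := Sum.elim (fun _ => fun _ => none) Subtype.val

/-- the empty index and the others -/
def spl (n N : ℕ) : Unit ⊕ FF n N ≃ Hat n N where
  toFun := splF n N
  invFun S := if h : S = fun _ => none then Sum.inl () else Sum.inr ⟨S, h⟩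
  left_inv x := by
    rcases x with x | x
    · exact dif_pos rfl
    · exact dif_neg x.2
  right_inv S := by
    by_cases h : S = fun _ => none
    · subst h
      exact congrArg (splF n N) (dif_pos rfl)
    · exact congrArg (splF n N) (dif_neg h)

/-- blocks -/
def bff (X : Matrix (Hat n N) (Hat n N) B) : Matrix (FF n N) (FF n N) B := fun S S' => X S.1 S'.1

/-- blocks -/
def bfo (X : Matrix (Hat n N) (Hat n N) B) : Matrix (FF n N) Unit B :=
  fun S _ => X S.1 (fun _ => none)

/-- blocks -/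
def bof (X : Matrix (Hat n N) (Hat n N) B) : Matrix Unit (FF n N) B :=
  fun _ S => X (fun _ => none) S.1

/-- blocks -/
def boo (X : Matrix (Hat n N) (Hat n N) B) : Matrix Unit Unit B :=
  fun _ _ => X (fun _ => none) (fun _ => none)

/-- blocks -/
def bl (X : Matrix (Hat n N) (Hat n N) B) : Matrix (Unit ⊕ FF n N) (Unit ⊕ FF n N) B :=
  X.submatrix (spl n N) (spl n N)

omit [NeZero N] [Ring B] in
theorem bl_eq (X : Matrix (Hat n N) (Hat n N) B) :
    bl X = Matrix.fromBlocks (boo X) (bof X) (bfo X) (bff X) := by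
  ext i j
  rcases i with i | i <;> rcases j with j | j <;> rfl

theorem bl_mul (X Y : Matrix (Hat n N) (Hat n N) B) : bl (X * Y) = bl X * bl Y :=
  (Matrix.submatrix_mul_equiv X Y _ _ _).symm

omit [NeZero N] in
theorem bl_one : bl (1 : Matrix (Hat n N) (Hat n N) B) = 1 := Matrix.submatrix_one_equiv _

end Blocks

section Alg

variable {B : Type*} [Ring B] {A U : Type*} [Fintype A] [Fintype U] [DecidableEq A] [DecidableEq U]

theorem block_alg {l : Matrix A U B} {v : Matrix U A B} {L D1 V D2 : Matrix A A B}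
    {w' : Matrix U U B}
    (h : Matrix.fromBlocks (1 : Matrix U U B) 0 l L * Matrix.fromBlocks (1 : Matrix U U B) 0 0 D1 *
        Matrix.fromBlocks (1 : Matrix U U B) v 0 V =
      Matrix.fromBlocks (1 : Matrix U U B) v 0 V * Matrix.fromBlocks w' 0 0 D2 *
        Matrix.fromBlocks (1 : Matrix U U B) 0 l L) :
    w' + v * D2 * l = 1 ∧ L * D1 * V = V * D2 * (1 - l * (v * D2)) * L := by
  simp only [Matrix.fromBlocks_multiply, Matrix.fromBlocks_inj, Matrix.mul_one, Matrix.one_mul,
    Matrix.mul_zero, Matrix.zero_mul, add_zero, zero_add] at h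
  obtain ⟨h11, h12, h21, h22⟩ := h
  refine ⟨h11.symm, ?_⟩
  have e : V * D2 * (1 - l * (v * D2)) * L = V * D2 * L - (V * D2 * l) * (v * D2 * L) := by
    rw [Matrix.mul_sub, Matrix.mul_one, Matrix.sub_mul]
    simp only [Matrix.mul_assoc]
  rw [e, ← h21, ← h12, ← h22]
  abel

theorem block_inv_lower {l l' : Matrix A U B} {L L' : Matrix A A B}
    (h : Matrix.fromBlocks (1 : Matrix U U B) 0 l L *
      Matrix.fromBlocks (1 : Matrix U U B) 0 l' L' = 1) :
    L * L' = 1 := by
  rw [← Matrix.fromBlocks_one, Matrix.fromBlocks_multiply, Matrix.fromBlocks_inj] at h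
  have := h.2.2.2
  rwa [Matrix.mul_zero, zero_add] at this

theorem block_inv_upper {v v' : Matrix U A B} {V V' : Matrix A A B}
    (h : Matrix.fromBlocks (1 : Matrix U U B) v 0 V *
      Matrix.fromBlocks (1 : Matrix U U B) v' 0 V' = 1) :
    V * V' = 1 := by
  rw [← Matrix.fromBlocks_one, Matrix.fromBlocks_multiply, Matrix.fromBlocks_inj] at h
  have := h.2.2.2
  rwa [Matrix.zero_mul, zero_add] at this

theorem block_inv_diag {x x' : Matrix U U B} {V V' : Matrix A A B}
    (h : Matrix.fromBlocks x 0 0 V * Matrix.fromBlocks x' 0 0 V' = 1) :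
    x * x' = 1 ∧ V * V' = 1 := by
  rw [← Matrix.fromBlocks_one, Matrix.fromBlocks_multiply, Matrix.fromBlocks_inj] at h
  have h1 := h.1
  have h4 := h.2.2.2
  rw [Matrix.mul_zero, add_zero] at h1
  rw [Matrix.zero_mul, zero_add] at h4
  exact ⟨h1, h4⟩

theorem inv_unique {X Y Z : Matrix A A B} (h1 : Y * X = 1) (h2 : X * Z = 1) : Y = Z := by
  rw [← mul_one Y, ← h2, ← mul_assoc, h1, one_mul]

theorem swap_inv {X : Matrix A U B} {Ψ : Matrix U A B} {Zi : Matrix U U B}
    (h1 : Zi * (1 - Ψ * X) = 1) (h2 : (1 - Ψ * X) * Zi = 1) :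
    (1 + X * Zi * Ψ) * (1 - X * Ψ) = 1 ∧ (1 - X * Ψ) * (1 + X * Zi * Ψ) = 1 := by
  have a1 : Zi * (Ψ * X) = Zi - 1 := by
    rw [mul_sub, mul_one] at h1
    rw [← h1]; abel
  have a2 : Ψ * X * Zi = Zi - 1 := by
    rw [sub_mul, one_mul] at h2
    rw [← h2]; abel
  constructor
  · have e : X * Zi * Ψ * (X * Ψ) = X * (Zi * (Ψ * X)) * Ψ := by simp only [Matrix.mul_assoc]
    rw [add_mul, mul_sub, mul_sub, one_mul, one_mul, mul_one, e, a1, Matrix.mul_sub,
      Matrix.sub_mul, Matrix.mul_one]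
    abel
  · have e : X * Ψ * (X * Zi * Ψ) = X * (Ψ * X * Zi) * Ψ := by simp only [Matrix.mul_assoc]
    rw [sub_mul, mul_add, mul_add, one_mul, one_mul, mul_one, e, a2, Matrix.mul_sub,
      Matrix.sub_mul, Matrix.mul_one]
    abel

end Alg

section Main

variable {n N N' : ℕ} [NeZero N] [NeZero N'] {B0 B M : Type*} [Ring B0] [Ring B] [AddCommGroup M]
  {D0 : Tw B0 M} {D : Tw B M} (P : Places n D0 D)

/-- the column of the tensor power -/
def lv (α : ZMod N → B0) (S : Hat n N) : B := P.tens fun j => (S j).elim 1 α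

/-- the row of the tensor power -/
def bv (w : B0) (S : Hat n N) : B := P.tens fun j => (S j).elim w (fun _ => 1)

/-- the folded column -/
noncomputable def αv (φ : FF n N → ZMod N') (α : ZMod N → B0) (w : B0) (i : ZMod N') : B :=
  ∑ S : FF n N, if φ S = i then bv P w S.1 * lv P α S.1 else 0

omit [NeZero N] in
theorem zero12 {X : Matrix (Option (ZMod N)) (Option (ZMod N)) B0}
    (h : ∀ b, X none (some b) = 0) : bof (tm P X) = 0 := by
  ext i S
  have hS : ∃ j, S.1 j ≠ none := by
    by_contra hc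
    push Not at hc
    exact S.2 (funext hc)
  obtain ⟨j, hj⟩ := hS
  obtain ⟨b, hb⟩ := Option.ne_none_iff_exists'.1 hj
  refine P.tens_zero _ j ?_
  rw [hb]
  exact h b

omit [NeZero N] in
theorem zero21 {X : Matrix (Option (ZMod N)) (Option (ZMod N)) B0}
    (h : ∀ b, X (some b) none = 0) : bfo (tm P X) = 0 := by
  ext S i
  have hS : ∃ j, S.1 j ≠ none := by
    by_contra hc
    push Not at hc
    exact S.2 (funext hc)
  obtain ⟨j, hj⟩ := hS
  obtain ⟨b, hb⟩ := Option.ne_none_iff_exists'.1 hj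
  refine P.tens_zero _ j ?_
  rw [hb]
  exact h b

omit [NeZero N] in
theorem one11 {X : Matrix (Option (ZMod N)) (Option (ZMod N)) B0}
    (h : X none none = 1) : boo (tm P X) = 1 := by
  ext i j
  rw [Matrix.one_apply, if_pos (Subsingleton.elim i j)]
  show P.tens (fun j => X none none) = 1
  rw [h]
  exact P.tens_one

end Main

end Pool.Agent.WhC
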