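import Pool.Agent.WhC.Defs

/-!
# Tensor powers of equivariant matrices
-/

set_option autoImplicit false

namespace Pool.Agent.WhC

open Finset

section Lists

variable {B : Type*} [Monoid B]

theorem ofFn_mul_comm : ∀ (k : ℕ) (f g : Fin k → B), (∀ i j, i < j → g i * f j = f j * g i) →
    (List.ofFn f).prod * (List.ofFn g).prod = (List.ofFn fun j => f j * g j).prod := by
  intro k
  induction k with
  | zero => intro f g _; simp
  | succ k ih =>
    intro f g h
    rw [List.ofFn_succ, List.ofFn_succ, List.ofFn_succ, List.prod_cons, List.prod_cons,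
      List.prod_cons, ← ih (fun j => f j.succ) (fun j => g j.succ)
        fun i j hij => h i.succ j.succ (Fin.succ_lt_succ_iff.2 hij)]
    have hc : Commute (g 0) (List.ofFn fun j : Fin k => f j.succ).prod := by
      refine Commute.list_prod_right _ _ fun x hx => ?_
      obtain ⟨j, rfl⟩ := (List.mem_ofFn' _ _).1 hx
      exact h 0 j.succ (Fin.succ_pos j)
    rw [mul_assoc, mul_assoc, ← mul_assoc _ (g 0), ← hc.eq]
    simp only [mul_assoc]

theorem ofFn_single : ∀ (k : ℕ) (f : Fin k → B) (j : Fin k), (∀ i, i ≠ j → f i = 1) →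
    (List.ofFn f).prod = f j := by
  intro k
  induction k with
  | zero => intro f j; exact j.elim0
  | succ k ih =>
    intro f j h
    rw [List.ofFn_succ, List.prod_cons]
    refine Fin.cases (fun h => ?_) (fun j h => ?_) j h
    · have : (List.ofFn fun i : Fin k => f i.succ).prod = 1 := by
        refine List.prod_eq_one fun x hx => ?_
        obtain ⟨i, rfl⟩ := (List.mem_ofFn' _ _).1 hx
        exact h i.succ (Fin.succ_ne_zero i)
      rw [this, mul_one]
    · rw [h 0 (Fin.succ_ne_zero j).symm, one_mul]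
      exact ih (fun i => f i.succ) j fun i hi => h i.succ fun h' => hi (Fin.succ_injective _ h')

end Lists

namespace Places

variable {n : ℕ} {B0 B M : Type*} [Ring B0] [Ring B] [AddCommGroup M] {D0 : Tw B0 M}
  {D : Tw B M} (P : Places n D0 D)

theorem tens_def (x : Fin (n + 1) → B0) : P.tens x = (List.ofFn fun j => P.pl j (x j)).prod := rfl

/-- the tensor map as a multilinear map -/
def tensM : MultilinearMap ℤ (fun _ : Fin (n + 1) => B0) B :=
  (MultilinearMap.mkPiAlgebraFin ℤ (n + 1) B).compLinearMap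
    fun j => (P.pl j).toAddMonoidHom.toIntLinearMap

theorem tensM_apply (x : Fin (n + 1) → B0) : P.tensM x = P.tens x := by
  unfold tensM
  rw [MultilinearMap.compLinearMap_apply, MultilinearMap.mkPiAlgebraFin_apply]
  rfl

theorem tens_mul (x y : Fin (n + 1) → B0) : P.tens x * P.tens y = P.tens fun j => x j * y j := by
  rw [tens_def, tens_def, tens_def, ofFn_mul_comm]
  · simp only [map_mul]
  · intro i j hij
    exact P.comm i j hij.ne _ _

theorem tens_one : P.tens (fun _ => 1) = 1 := by
  rw [tens_def]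
  refine List.prod_eq_one fun x hx => ?_
  obtain ⟨i, rfl⟩ := (List.mem_ofFn' _ _).1 hx
  exact map_one _

theorem tens_zero (x : Fin (n + 1) → B0) (j : Fin (n + 1)) (h : x j = 0) : P.tens x = 0 := by
  rw [← tensM_apply]
  exact P.tensM.map_coord_zero j h

theorem tens_single (x : B0) (j : Fin (n + 1)) (f : Fin (n + 1) → B0) (hj : f j = x)
    (h : ∀ i, i ≠ j → f i = 1) : P.tens f = P.pl j x := by
  rw [tens_def, ofFn_single (n + 1) _ j, hj]
  intro i hi
  rw [h i hi, map_one]

theorem T_pl (j : Fin (n + 1)) (x : B0) : D.T (P.pl j x) = D0.T x := by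
  refine Fin.induction (P.T_zero x) (fun j ih => ?_) j
  rw [← ih, ← P.s_succ, D.T_s]

theorem s_tens (x : Fin (n + 1) → B0) : D.s (P.tens x) =
    P.tens (Fin.snoc (α := fun _ => B0) (fun j : Fin n => x j.succ) (D0.s (x 0))) := by
  have e1 : D.s (P.tens x) = P.pl (Fin.last n) (D0.s (x 0)) *
      (List.ofFn fun j : Fin n => P.pl j.castSucc (x j.succ)).prod := by
    rw [tens_def, List.ofFn_succ, List.prod_cons, map_mul, P.s_zero, map_list_prod, List.map_ofFn]
    congr 3
    funext j
    exact P.s_succ j _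
  have e2 : P.tens (Fin.snoc (α := fun _ => B0) (fun j : Fin n => x j.succ) (D0.s (x 0))) =
      (List.ofFn fun j : Fin n => P.pl j.castSucc (x j.succ)).prod *
        P.pl (Fin.last n) (D0.s (x 0)) := by
    rw [tens_def, List.ofFn_succ', List.concat_eq_append, List.prod_append, List.prod_singleton]
    simp only [Fin.snoc_castSucc, Fin.snoc_last]
  rw [e1, e2]
  refine (Commute.list_prod_right _ _ fun y hy => ?_).eq
  obtain ⟨j, rfl⟩ := (List.mem_ofFn' _ _).1 hy
  exact P.comm _ _ (Fin.castSucc_lt_last j).ne' _ _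

/-- expansion of a pure tensor of sums -/
theorem tens_sum {C : Type*} [Fintype C] [DecidableEq C] (g : Fin (n + 1) → C → B0) :
    P.tens (fun j => ∑ c, g j c) = ∑ r : Fin (n + 1) → C, P.tens fun j => g j (r j) := by
  rw [← tensM_apply, MultilinearMap.map_sum]
  exact Finset.sum_congr rfl fun r _ => P.tensM_apply _

end Places

section Matrices

variable {n N : ℕ} {B0 B M : Type*} [Ring B0] [Ring B] [AddCommGroup M] {D0 : Tw B0 M}
  {D : Tw B M} (P : Places n D0 D)

/-- the tensor power of a matrix -/
def tm (X : Matrix (Option (ZMod N)) (Option (ZMod N)) B0) : Matrix (Hat n N) (Hat n N) B :=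
  fun S S' => P.tens fun j => X (S j) (S' j)

theorem tm_apply (X : Matrix (Option (ZMod N)) (Option (ZMod N)) B0) (S S' : Hat n N) :
    tm P X S S' = P.tens fun j => X (S j) (S' j) := rfl

variable [NeZero N]

theorem tm_mul (X Y : Matrix (Option (ZMod N)) (Option (ZMod N)) B0) :
    tm P X * tm P Y = tm P (X * Y) := by
  ext S S''
  rw [Matrix.mul_apply, tm_apply]
  have h : (fun j => (X * Y) (S j) (S'' j)) = fun j => ∑ c, X (S j) c * Y c (S'' j) := by
    funext j
    exact Matrix.mul_apply
  rw [h, P.tens_sum]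
  refine Finset.sum_congr rfl fun S' _ => ?_
  rw [tm_apply, tm_apply, P.tens_mul]

omit [NeZero N] in
theorem tm_one : tm P (1 : Matrix (Option (ZMod N)) (Option (ZMod N)) B0) = 1 := by
  ext S S'
  rw [tm_apply, Matrix.one_apply]
  split_ifs with h
  · subst h
    simp only [Matrix.one_apply_eq]
    exact P.tens_one
  · obtain ⟨j, hj⟩ := Function.ne_iff.1 h
    exact P.tens_zero _ j (Matrix.one_apply_ne hj)

omit [NeZero N] in
theorem tm_eqv (X : Matrix (Option (ZMod N)) (Option (ZMod N)) B0) (hX : Eqv D0 sh sh X) :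
    Eqv D sg sg (tm P X) := by
  intro S S'
  rw [tm_apply, tm_apply, P.s_tens]
  congr 1
  funext j
  refine Fin.lastCases ?_ (fun j => ?_) j
  · unfold sg
    rw [Fin.snoc_last, Fin.snoc_last, Fin.snoc_last]
    exact hX _ _
  · unfold sg
    rw [Fin.snoc_castSucc, Fin.snoc_castSucc, Fin.snoc_castSucc]

end Matrices

end Pool.Agent.WhC
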